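import Mathlib

/-!
# Segments through a null set: the Venetian blind (helper84)

`bs N η k` is the slope function of the stage `k` on `[0, 1)`: a piecewise affine function, with pieces of length `N ^ (-k)`
and derivative `- k η` on each piece.  The line through `(0, h)` has the slope `bs N η k h`.  The lines of a piece meet at
`x = 1 / (k η)`.
-/

set_option autoImplicit false

namespace Pool.Agent.Lib.MP_6b55e5_an.OS.BL

open MeasureTheory Set

/-- the left end point of the piece of level `k` which contains `h` -/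
noncomputable def fl (N : ℕ) (k : ℕ) (h : ℝ) : ℝ := ⌊(N : ℝ) ^ k * h⌋ / (N : ℝ) ^ k

/-- the slopes of the stage `k` -/
noncomputable def bs (N : ℕ) (η : ℝ) : ℕ → ℝ → ℝ
  | 0, _ => 0
  | k + 1, h => bs N η k (fl N (k + 1) h) - ((k : ℝ) + 1) * η * (h - fl N (k + 1) h)

section

variable {N : ℕ} {η : ℝ}

lemma fl_le (hN : 0 < N) (k : ℕ) (h : ℝ) : fl N k h ≤ h := by
  unfold fl
  have hp : (0 : ℝ) < (N : ℝ) ^ k := by positivity
  rw [div_le_iff₀ hp]
  linarith [Int.floor_le ((N : ℝ) ^ k * h)]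

lemma lt_fl (hN : 0 < N) (k : ℕ) (h : ℝ) : h < fl N k h + 1 / (N : ℝ) ^ k := by
  unfold fl
  have hp : (0 : ℝ) < (N : ℝ) ^ k := by positivity
  rw [← add_div, lt_div_iff₀ hp]
  linarith [Int.lt_floor_add_one ((N : ℝ) ^ k * h)]

/-- points of the same piece -/
lemma fl_eq (hN : 0 < N) (k : ℕ) (h τ : ℝ) (h0 : 0 ≤ τ) (h1 : τ < 1 / (N : ℝ) ^ k) :
    fl N k (fl N k h + τ) = fl N k h := by
  unfold fl
  have hp : (0 : ℝ) < (N : ℝ) ^ k := by positivity
  congr 2
  rw [Int.floor_eq_iff, mul_add, mul_div_cancel₀ _ hp.ne']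
  rw [lt_div_iff₀ hp] at h1
  constructor
  · have : 0 ≤ (N : ℝ) ^ k * τ := by positivity
    linarith
  · linarith

lemma fl_fl (hN : 0 < N) (k : ℕ) (h : ℝ) : fl N k (fl N k h) = fl N k h := by
  have := fl_eq hN k h 0 le_rfl (by positivity)
  rwa [add_zero] at this

/-- the pieces are nested -/
lemma fl_fl_succ (hN : 0 < N) (k : ℕ) (h : ℝ) : fl N k (fl N (k + 1) h) = fl N k h := by
  unfold fl
  have hp : (0 : ℝ) < (N : ℝ) ^ k := by positivity
  have hN' : (0 : ℝ) < N := by positivity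
  congr 2
  rw [Int.floor_eq_iff]
  have e : (N : ℝ) ^ k * ((⌊(N : ℝ) ^ (k + 1) * h⌋ : ℝ) / (N : ℝ) ^ (k + 1)) =
      (⌊(N : ℝ) ^ (k + 1) * h⌋ : ℝ) / N := by
    rw [pow_succ]
    field_simp
  rw [e]
  have h1 := Int.floor_le ((N : ℝ) ^ k * h)
  have h2 := Int.lt_floor_add_one ((N : ℝ) ^ k * h)
  have e2 : (N : ℝ) ^ (k + 1) * h = N * ((N : ℝ) ^ k * h) := by ring
  constructor
  · rw [le_div_iff₀ hN']
    have h3 : ((⌊(N : ℝ) ^ k * h⌋ * N : ℤ) : ℝ) ≤ (N : ℝ) ^ (k + 1) * h := by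
      push_cast
      rw [e2]
      nlinarith
    have h4 := Int.le_floor.2 h3
    have h5 : ((⌊(N : ℝ) ^ k * h⌋ * N : ℤ) : ℝ) ≤ (⌊(N : ℝ) ^ (k + 1) * h⌋ : ℝ) := by
      exact_mod_cast h4
    push_cast at h5
    exact h5
  · rw [div_lt_iff₀ hN']
    have h3 := Int.floor_le ((N : ℝ) ^ (k + 1) * h)
    rw [e2] at h3
    rw [e2]
    nlinarith

lemma bs_affine (hN : 0 < N) (k : ℕ) (h : ℝ) :
    bs N η k h = bs N η k (fl N k h) - (k : ℝ) * η * (h - fl N k h) := by
  cases k with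
  | zero => simp [bs]
  | succ k =>
    simp only [bs]
    rw [fl_fl hN]
    push_cast
    ring

lemma bs_succ_fl (hN : 0 < N) (k : ℕ) (h : ℝ) :
    bs N η (k + 1) (fl N (k + 1) h) = bs N η k (fl N (k + 1) h) := by
  simp only [bs]
  rw [fl_fl hN]
  ring

/-- the affine form on the finer pieces -/
lemma bs_affine' (hN : 0 < N) (k : ℕ) (h : ℝ) :
    bs N η k h = bs N η k (fl N (k + 1) h) - (k : ℝ) * η * (h - fl N (k + 1) h) := by
  rw [bs_affine hN k h, bs_affine hN k (fl N (k + 1) h), fl_fl_succ hN]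
  ring

lemma fl_mem (hN : 0 < N) (k : ℕ) {h : ℝ} (h0 : 0 ≤ h) (h1 : h < 1) :
    0 ≤ fl N k h ∧ fl N k h + 1 / (N : ℝ) ^ k ≤ 1 := by
  have hp : (0 : ℝ) < (N : ℝ) ^ k := by positivity
  unfold fl
  constructor
  · have : 0 ≤ ⌊(N : ℝ) ^ k * h⌋ := Int.floor_nonneg.2 (by positivity)
    positivity
  · rw [← add_div, div_le_one hp]
    have h2 : ⌊(N : ℝ) ^ k * h⌋ < (N : ℤ) ^ k := by
      rw [Int.floor_lt]
      push_cast
      nlinarith
    have h3 : (⌊(N : ℝ) ^ k * h⌋ : ℤ) + 1 ≤ (N : ℤ) ^ k := h2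
    exact_mod_cast h3

/-- the lines of every stage cover the half strip to the left -/
lemma bs_cover (hN : 0 < N) (hη : 0 ≤ η) (k : ℕ) (u v : ℝ) (hu : u ≤ 0) (h0 : 0 ≤ v) (h1 : v < 1) :
    ∃ h : ℝ, 0 ≤ h ∧ h < 1 ∧ h + bs N η k h * u = v := by
  induction k with
  | zero => exact ⟨v, h0, h1, by simp [bs]⟩
  | succ k ih =>
    obtain ⟨h, h2, h3, h4⟩ := ih
    have hl : (0 : ℝ) ≤ (k : ℝ) * η := by positivity
    have hl' : (k : ℝ) * η ≤ ((k : ℝ) + 1) * η := by nlinarith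
    have hp : (0 : ℝ) < 1 - u * (((k : ℝ) + 1) * η) := by nlinarith
    have hq : (0 : ℝ) < 1 - u * ((k : ℝ) * η) := by nlinarith
    have ha := fl_le hN (k + 1) h
    have hb := lt_fl hN (k + 1) h
    have hc := fl_mem hN (k + 1) h2 h3
    set a := fl N (k + 1) h with had
    set t := (h - a) * (1 - u * ((k : ℝ) * η)) / (1 - u * (((k : ℝ) + 1) * η)) with ht
    have ht0 : 0 ≤ t := div_nonneg (mul_nonneg (by linarith) hq.le) hp.le
    have ht1 : t ≤ h - a := by
      rw [ht, div_le_iff₀ hp]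
      apply mul_le_mul_of_nonneg_left _ (by linarith)
      nlinarith
    have ht2 : t < 1 / (N : ℝ) ^ (k + 1) := by linarith
    refine ⟨a + t, by linarith [hc.1], by linarith [hc.2], ?_⟩
    have e1 : fl N (k + 1) (a + t) = a := fl_eq hN (k + 1) h t ht0 ht2
    have e2 : bs N η (k + 1) (a + t) = bs N η k a - ((k : ℝ) + 1) * η * t := by
      simp only [bs]
      rw [e1]
      ring
    have e3 : t * (1 - u * (((k : ℝ) + 1) * η)) = (h - a) * (1 - u * ((k : ℝ) * η)) := by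
      rw [ht, div_mul_cancel₀ _ hp.ne']
    rw [e2, ← h4, bs_affine' hN k h]
    linear_combination e3

lemma bs_bound (hN : 2 ≤ N) (hη : 0 ≤ η) {m : ℕ} (k : ℕ) (hk : k ≤ m) (h : ℝ) :
    |bs N η k h| ≤ 2 * (m * η) * (1 / N) * (1 - 1 / (N : ℝ) ^ k) := by
  have hN0 : 0 < N := by omega
  have hN' : (2 : ℝ) ≤ N := by exact_mod_cast hN
  induction k generalizing h with
  | zero => simp [bs]
  | succ k ih =>
    have h1 := ih (by omega) (fl N (k + 1) h)
    have ha := fl_le hN0 (k + 1) h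
    have hb := lt_fl hN0 (k + 1) h
    have hkm : ((k : ℝ) + 1) ≤ m := by exact_mod_cast hk
    have hl : (0 : ℝ) ≤ ((k : ℝ) + 1) * η := by positivity
    have hmη : ((k : ℝ) + 1) * η ≤ m * η := mul_le_mul_of_nonneg_right hkm hη
    have hp : (0 : ℝ) < (N : ℝ) ^ (k + 1) := by positivity
    have h2 : |((k : ℝ) + 1) * η * (h - fl N (k + 1) h)| ≤ m * η * (1 / (N : ℝ) ^ (k + 1)) := by
      rw [abs_of_nonneg (mul_nonneg hl (by linarith))]
      exact mul_le_mul hmη (by linarith) (by linarith) (by linarith)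
    have h3 : |bs N η (k + 1) h| ≤ 2 * (m * η) * (1 / N) * (1 - 1 / (N : ℝ) ^ k) +
        m * η * (1 / (N : ℝ) ^ (k + 1)) := by
      simp only [bs]
      exact (abs_sub _ _).trans (add_le_add h1 h2)
    refine h3.trans ?_
    have e1 : 1 / (N : ℝ) ^ (k + 1) = 1 / N * (1 / (N : ℝ) ^ k) := by
      rw [pow_succ]; field_simp
    rw [e1]
    set A := 1 / (N : ℝ) with hA
    set B := 1 / (N : ℝ) ^ k with hB
    have hA1 : A ≤ 1 / 2 := by
      rw [hA]
      exact one_div_le_one_div_of_le (by norm_num) hN'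
    have hA0 : 0 ≤ A := by positivity
    have hB0 : 0 ≤ B := by positivity
    have hM : 0 ≤ (m : ℝ) * η := by positivity
    have : 0 ≤ (m : ℝ) * η * A * B * (1 - 2 * A) := by
      have : 0 ≤ 1 - 2 * A := by linarith
      positivity
    nlinarith

/-- the point of the line through `(0, h)` over `x` -/
noncomputable def gp (N : ℕ) (η : ℝ) (k : ℕ) (x h : ℝ) : ℝ := h + bs N η k h * x

lemma gp_succ (k : ℕ) (x h : ℝ) :
    gp N η (k + 1) x h = gp N η k x (fl N (k + 1) h) +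
      (1 - ((k : ℝ) + 1) * η * x) * (h - fl N (k + 1) h) := by
  unfold gp
  simp only [bs]
  ring

lemma gp_affine (hN : 0 < N) (k : ℕ) (x h : ℝ) :
    gp N η k x h = gp N η k x (fl N k h) + (1 - (k : ℝ) * η * x) * (h - fl N k h) := by
  unfold gp
  rw [bs_affine hN k h]
  ring

/-- comparison of the stages -/
lemma gp_near (hN : 2 ≤ N) {m : ℕ} {x c : ℝ} (hc : ∀ k : ℕ, k ≤ m → |1 - (k : ℝ) * η * x| ≤ c) (k j : ℕ)
    (hkj : k ≤ j) (hj : j ≤ m) (h : ℝ) (h0 : 0 ≤ h) (h1 : h < 1) :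
    ∃ h' : ℝ, 0 ≤ h' ∧ h' < 1 ∧
      |gp N η j x h - gp N η k x h'| ≤ 2 * c * (1 / (N : ℝ) ^ (k + 1) - 1 / (N : ℝ) ^ (j + 1)) := by
  have hN0 : 0 < N := by omega
  have hN' : (2 : ℝ) ≤ N := by exact_mod_cast hN
  induction j, hkj using Nat.le_induction generalizing h with
  | base => exact ⟨h, h0, h1, by simp⟩
  | succ j hkj ih =>
    have hm := fl_mem hN0 (j + 1) h0 h1
    have hp : (0 : ℝ) < 1 / (N : ℝ) ^ (j + 1) := by positivity
    obtain ⟨h', h2, h3, h4⟩ := ih (by omega) (fl N (j + 1) h) hm.1 (by linarith [hm.2])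
    refine ⟨h', h2, h3, ?_⟩
    rw [gp_succ]
    have ha := fl_le hN0 (j + 1) h
    have hb := lt_fl hN0 (j + 1) h
    have hcc := hc (j + 1) hj
    push_cast at hcc
    have hc0 : 0 ≤ c := (abs_nonneg _).trans hcc
    have h5 : |(1 - ((j : ℝ) + 1) * η * x) * (h - fl N (j + 1) h)| ≤ c * (1 / (N : ℝ) ^ (j + 1)) := by
      rw [abs_mul, abs_of_nonneg (show 0 ≤ h - fl N (j + 1) h by linarith)]
      exact mul_le_mul hcc (by linarith) (by linarith) hc0
    have h6 : |gp N η j x (fl N (j + 1) h) +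
        (1 - ((j : ℝ) + 1) * η * x) * (h - fl N (j + 1) h) - gp N η k x h'| ≤
        2 * c * (1 / (N : ℝ) ^ (k + 1) - 1 / (N : ℝ) ^ (j + 1)) + c * (1 / (N : ℝ) ^ (j + 1)) := by
      have e : gp N η j x (fl N (j + 1) h) +
          (1 - ((j : ℝ) + 1) * η * x) * (h - fl N (j + 1) h) - gp N η k x h' =
          (gp N η j x (fl N (j + 1) h) - gp N η k x h') +
          (1 - ((j : ℝ) + 1) * η * x) * (h - fl N (j + 1) h) := by ring
      rw [e]
      exact (abs_add_le _ _).trans (add_le_add h4 h5)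
    refine h6.trans ?_
    have e1 : 1 / (N : ℝ) ^ (j + 1 + 1) = 1 / N * (1 / (N : ℝ) ^ (j + 1)) := by
      rw [pow_succ (N : ℝ) (j + 1)]; field_simp
    rw [e1]
    have hA1 : 1 / (N : ℝ) ≤ 1 / 2 := one_div_le_one_div_of_le (by norm_num) hN'
    set A := 1 / (N : ℝ)
    set B := 1 / (N : ℝ) ^ (j + 1)
    have : 0 ≤ c * B * (1 - 2 * A) := by
      have : 0 ≤ 1 - 2 * A := by linarith
      positivity
    nlinarith

/-- the section of the covered set over `x` is contained in few short intervals -/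
lemma gp_section (hN : 2 ≤ N) {m : ℕ} {x c : ℝ} (hc : ∀ k : ℕ, k ≤ m → |1 - (k : ℝ) * η * x| ≤ c) (k : ℕ)
    (hkm : k < m) (hk : |1 - (k : ℝ) * η * x| ≤ 2 * η) (h τ : ℝ) (h0 : 0 ≤ h) (h1 : h < 1) (t0 : 0 ≤ τ)
    (t1 : τ ≤ 1 / (N : ℝ) ^ m) :
    ∃ i < N ^ k, |gp N η m x h + (1 - (m : ℝ) * η * x) * τ - gp N η k x ((i : ℝ) / (N : ℝ) ^ k)| ≤
      (2 * η + 3 * c / N) / (N : ℝ) ^ k := by
  have hN0 : 0 < N := by omega
  have hN' : (2 : ℝ) ≤ N := by exact_mod_cast hN
  obtain ⟨h', h2, h3, h4⟩ := gp_near hN hc k m hkm.le le_rfl h h0 h1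
  have hp : (0 : ℝ) < (N : ℝ) ^ k := by positivity
  have hfl : 0 ≤ ⌊(N : ℝ) ^ k * h'⌋ := Int.floor_nonneg.2 (by positivity)
  obtain ⟨i, hi⟩ := Int.eq_ofNat_of_zero_le hfl
  have hif : fl N k h' = (i : ℝ) / (N : ℝ) ^ k := by
    unfold fl
    rw [hi]
    simp
  have hiN : i < N ^ k := by
    have h5 : ⌊(N : ℝ) ^ k * h'⌋ < (N : ℤ) ^ k := by
      rw [Int.floor_lt]
      push_cast
      nlinarith
    rw [hi] at h5
    exact_mod_cast h5
  refine ⟨i, hiN, ?_⟩
  have ha := fl_le hN0 k h'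
  have hb := lt_fl hN0 k h'
  have hc0 : 0 ≤ c := (abs_nonneg _).trans (hc m le_rfl)
  have hη0 : 0 ≤ 2 * η := (abs_nonneg _).trans hk
  have e1 : gp N η k x h' - gp N η k x (fl N k h') = (1 - (k : ℝ) * η * x) * (h' - fl N k h') := by
    rw [gp_affine hN0 k x h']
    ring
  have h6 : |gp N η k x h' - gp N η k x (fl N k h')| ≤ 2 * η * (1 / (N : ℝ) ^ k) := by
    rw [e1, abs_mul, abs_of_nonneg (show 0 ≤ h' - fl N k h' by linarith)]
    exact mul_le_mul hk (by linarith) (by linarith) hη0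
  have h7 : |(1 - (m : ℝ) * η * x) * τ| ≤ c * (1 / (N : ℝ) ^ m) := by
    rw [abs_mul, abs_of_nonneg t0]
    exact mul_le_mul (hc m le_rfl) t1 t0 hc0
  have h8 : 1 / (N : ℝ) ^ m ≤ 1 / (N : ℝ) ^ (k + 1) := by
    apply one_div_le_one_div_of_le (by positivity)
    exact pow_le_pow_right₀ (by linarith) hkm
  have h9 : (0 : ℝ) ≤ 1 / (N : ℝ) ^ (m + 1) := by positivity
  rw [← hif]
  have e2 : gp N η m x h + (1 - (m : ℝ) * η * x) * τ - gp N η k x (fl N k h') =
      (gp N η m x h - gp N η k x h') + (gp N η k x h' - gp N η k x (fl N k h')) +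
        (1 - (m : ℝ) * η * x) * τ := by ring
  rw [e2]
  refine (abs_add_three _ _ _).trans ?_
  have e3 : (2 * η + 3 * c / N) / (N : ℝ) ^ k =
      2 * η * (1 / (N : ℝ) ^ k) + 3 * c * (1 / (N : ℝ) ^ (k + 1)) := by
    rw [pow_succ]; field_simp
  rw [e3]
  have h10 : c * (1 / (N : ℝ) ^ m) ≤ c * (1 / (N : ℝ) ^ (k + 1)) := mul_le_mul_of_nonneg_left h8 hc0
  have h11 : 0 ≤ c * (1 / (N : ℝ) ^ (m + 1)) := mul_nonneg hc0 h9
  nlinarith [h4, h6, h7, h10, h11]

end

/-- The set covered by the (closed) lines of the stage `m` over `[d, 2]`. -/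
noncomputable def VB (N : ℕ) (η : ℝ) (m : ℕ) (d : ℝ) : Set (ℝ × ℝ) :=
  ⋃ i ∈ Finset.range (N ^ m), (fun q : ℝ × ℝ =>
    (q.2, gp N η m q.2 ((i : ℝ) / (N : ℝ) ^ m) + (1 - (m : ℝ) * η * q.2) * q.1)) ''
      (Icc (0 : ℝ) (1 / (N : ℝ) ^ m) ×ˢ Icc d 2)

lemma VB_compact (N : ℕ) (η : ℝ) (m : ℕ) (d : ℝ) : IsCompact (VB N η m d) := by
  unfold VB
  refine (Finset.range (N ^ m)).isCompact_biUnion fun i _ => ?_
  refine (isCompact_Icc.prod isCompact_Icc).image ?_
  unfold gp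
  fun_prop

lemma mem_VB {N : ℕ} {η : ℝ} {m : ℕ} {d : ℝ} (hN : 0 < N) {x h : ℝ} (hx : d ≤ x) (hx2 : x ≤ 2)
    (h0 : 0 ≤ h) (h1 : h < 1) : (x, h + bs N η m h * x) ∈ VB N η m d := by
  have hp : (0 : ℝ) < (N : ℝ) ^ m := by positivity
  have hfl : 0 ≤ ⌊(N : ℝ) ^ m * h⌋ := Int.floor_nonneg.2 (by positivity)
  obtain ⟨i, hi⟩ := Int.eq_ofNat_of_zero_le hfl
  have hif : fl N m h = (i : ℝ) / (N : ℝ) ^ m := by
    unfold fl
    rw [hi]
    simp
  have hiN : i < N ^ m := by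
    have h5 : ⌊(N : ℝ) ^ m * h⌋ < (N : ℤ) ^ m := by
      rw [Int.floor_lt]
      push_cast
      nlinarith
    rw [hi] at h5
    exact_mod_cast h5
  have ha := fl_le hN m h
  have hb := lt_fl hN m h
  unfold VB
  refine mem_iUnion₂.2 ⟨i, Finset.mem_range.2 hiN, ⟨(h - fl N m h, x),
    ⟨⟨by simp only; linarith, by simp only; linarith⟩, ⟨hx, hx2⟩⟩, ?_⟩⟩
  simp only
  rw [← hif, ← gp_affine hN m x h]
  rfl

/-- the measure of the covered set -/
lemma VB_volume {N : ℕ} {η : ℝ} {m : ℕ} {d : ℝ} (hN : 2 ≤ N) (hη : 0 < η) (hd : 0 < d)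
    (hm : 1 / d + η ≤ (m : ℝ) * η) {c : ℝ} (hc : 1 + 2 * (m * η) ≤ c) :
    volume (VB N η m d) ≤ ENNReal.ofReal (8 * η + 12 * c / N) := by
  have hN0 : 0 < N := by omega
  have hmeas : MeasurableSet (VB N η m d) := (VB_compact N η m d).isClosed.measurableSet
  have hc0 : 0 ≤ c := by
    have : (0 : ℝ) ≤ m * η := by positivity
    linarith
  rw [Measure.volume_eq_prod, Measure.prod_apply hmeas]
  have hsec : ∀ x : ℝ, volume (Prod.mk x ⁻¹' VB N η m d) ≤
      (Icc d 2).indicator (fun _ => ENNReal.ofReal (4 * η + 6 * c / N)) x := by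
    intro x
    by_cases hx : x ∈ Icc d 2
    · rw [indicator_of_mem hx]
      have hx0 : 0 < x := hd.trans_le hx.1
      have hcc : ∀ k : ℕ, k ≤ m → |1 - (k : ℝ) * η * x| ≤ c := by
        intro k hk
        have h1 : (k : ℝ) ≤ m := by exact_mod_cast hk
        have h2 : (k : ℝ) * η ≤ m * η := mul_le_mul_of_nonneg_right h1 hη.le
        have h3 : (0 : ℝ) ≤ (k : ℝ) * η := by positivity
        have h4 : (k : ℝ) * η * x ≤ (m * η) * 2 := mul_le_mul h2 hx.2 hx0.le (by positivity)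
        rw [abs_le]
        constructor
        · linarith
        · have : 0 ≤ (k : ℝ) * η * x := by positivity
          have : (0 : ℝ) ≤ m * η := by positivity
          linarith
      -- the level with pivot near `x`
      set k : ℕ := ⌊1 / (x * η)⌋₊ with hk
      have hxη : 0 < x * η := by positivity
      have hk1 : (k : ℝ) ≤ 1 / (x * η) := Nat.floor_le (by positivity)
      have hk2 : 1 / (x * η) < k + 1 := Nat.lt_floor_add_one _
      have hkm : k < m := by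
        have h1 : 1 / (x * η) ≤ 1 / (d * η) := by
          apply one_div_le_one_div_of_le (by positivity)
          exact mul_le_mul_of_nonneg_right hx.1 hη.le
        have h2 : 1 / (d * η) + 1 ≤ m := by
          have : (1 / (d * η) + 1) * η ≤ m * η := by
            have e : (1 / (d * η) + 1) * η = 1 / d + η := by field_simp
            rw [e]; exact hm
          exact le_of_mul_le_mul_right this hη
        have h3 : (k : ℝ) < m := by linarith
        exact_mod_cast h3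
      have hkη : |1 - (k : ℝ) * η * x| ≤ 2 * η := by
        rw [le_div_iff₀ hxη] at hk1
        rw [div_lt_iff₀ hxη] at hk2
        have hxx := hx.2
        rw [abs_of_nonneg (by linarith)]
        nlinarith
      have hsub : Prod.mk x ⁻¹' VB N η m d ⊆ ⋃ i ∈ Finset.range (N ^ k),
          Metric.closedBall (gp N η k x ((i : ℝ) / (N : ℝ) ^ k)) ((2 * η + 3 * c / N) / (N : ℝ) ^ k) := by
        intro y hy
        unfold VB at hy
        obtain ⟨i, hi, ⟨τ, x'⟩, ⟨⟨t0, t1⟩, _⟩, hq⟩ := mem_iUnion₂.1 hy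
        simp only at t0 t1 hq
        obtain ⟨e1, e2⟩ := Prod.mk.inj hq
        subst e1
        have hi' : (i : ℝ) < (N : ℝ) ^ m := by exact_mod_cast Finset.mem_range.1 hi
        have hpm : (0 : ℝ) < (N : ℝ) ^ m := by positivity
        obtain ⟨j, hj, hj2⟩ := gp_section hN hcc k hkm hkη ((i : ℝ) / (N : ℝ) ^ m) τ (by positivity)
          ((div_lt_one hpm).2 hi') t0 t1
        refine mem_iUnion₂.2 ⟨j, Finset.mem_range.2 hj, ?_⟩
        rw [Metric.mem_closedBall, Real.dist_eq, ← e2]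
        exact hj2
      refine (measure_mono hsub).trans ((measure_biUnion_finset_le _ _).trans ?_)
      simp only [Real.volume_closedBall]
      rw [Finset.sum_const, Finset.card_range, nsmul_eq_mul]
      rw [← ENNReal.ofReal_natCast, ← ENNReal.ofReal_mul (by positivity)]
      apply le_of_eq
      congr 1
      push_cast
      field_simp
      ring
    · rw [indicator_of_notMem hx]
      have : Prod.mk x ⁻¹' VB N η m d = ∅ := by
        ext y
        simp only [mem_preimage, mem_empty_iff_false, iff_false]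
        intro hy
        unfold VB at hy
        obtain ⟨i, hi, ⟨τ, x'⟩, ⟨_, hx'⟩, hq⟩ := mem_iUnion₂.1 hy
        obtain ⟨e1, _⟩ := Prod.mk.inj hq
        simp only at e1 hx'
        rw [e1] at hx'
        exact hx hx'
      rw [this]
      simp
  refine (lintegral_mono hsec).trans ?_
  rw [lintegral_indicator measurableSet_Icc, lintegral_const, Measure.restrict_apply MeasurableSet.univ,
    univ_inter, Real.volume_Icc, ← ENNReal.ofReal_mul (by positivity)]
  apply ENNReal.ofReal_le_ofReal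
  have h1 : 0 ≤ 4 * η + 6 * c / N := by positivity
  have h2 : 8 * η + 12 * c / N = (4 * η + 6 * c / N) * 2 := by ring
  rw [h2]
  exact mul_le_mul_of_nonneg_left (by linarith) h1

/-- BLIND LEMMA, unit height. -/
theorem blind1 {d ε ρ : ℝ} (hd : 0 < d) (hε : 0 < ε) (hρ : 0 < ρ) :
    ∃ (s : ℝ → ℝ) (K : Set (ℝ × ℝ)), (∀ h, |s h| ≤ ρ) ∧
      (∀ u v : ℝ, u ≤ 0 → 0 ≤ v → v < 1 → ∃ h : ℝ, 0 ≤ h ∧ h < 1 ∧ h + s h * u = v) ∧
      IsCompact K ∧ volume K ≤ ENNReal.ofReal ε ∧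
      ∀ h x : ℝ, 0 ≤ h → h < 1 → d ≤ x → x ≤ 2 → (x, h + s h * x) ∈ K := by
  set η : ℝ := ε / 16 with hη
  have hη0 : 0 < η := by positivity
  obtain ⟨m, hm⟩ := exists_nat_ge ((1 / d + η) / η)
  have hm' : 1 / d + η ≤ (m : ℝ) * η := (div_le_iff₀ hη0).1 hm
  set c : ℝ := 1 + 2 * (m * η) with hc
  have hc0 : 0 < c := by positivity
  obtain ⟨N, hN⟩ := exists_nat_ge (24 * c / ε + 2 * (m * η) / ρ + 2)
  have h1 : (0 : ℝ) ≤ 24 * c / ε := by positivity
  have h2 : (0 : ℝ) ≤ 2 * (m * η) / ρ := by positivity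
  have hN2 : 2 ≤ N := by
    have : (2 : ℝ) ≤ N := by linarith
    exact_mod_cast this
  have hNp : (0 : ℝ) < N := by positivity
  have hN0 : 0 < N := by omega
  refine ⟨bs N η m, VB N η m d, ?_, ?_, VB_compact N η m d, ?_, ?_⟩
  · intro h
    refine (bs_bound hN2 hη0.le m le_rfl h).trans ?_
    have h3 : 2 * (m * η) ≤ ρ * N := by
      have : 2 * (m * η) / ρ ≤ N := by linarith
      rw [div_le_iff₀ hρ] at this
      linarith
    have h4 : 2 * (m * η) * (1 / N) ≤ ρ := by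
      rw [mul_one_div, div_le_iff₀ hNp]
      exact h3
    have h5 : (0 : ℝ) ≤ 1 / (N : ℝ) ^ m := by positivity
    have h6 : (0 : ℝ) ≤ 2 * (m * η) * (1 / N) := by positivity
    nlinarith
  · intro u v hu h0 h3
    exact bs_cover hN0 hη0.le m u v hu h0 h3
  · refine (VB_volume hN2 hη0 hd hm' le_rfl).trans (ENNReal.ofReal_le_ofReal ?_)
    have h3 : 24 * c ≤ ε * N := by
      have : 24 * c / ε ≤ N := by linarith
      rw [div_le_iff₀ hε] at this
      linarith
    have h4 : 12 * c / N ≤ ε / 2 := by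
      rw [div_le_iff₀ hNp]
      linarith
    linarith
  · intro h x h0 h3 hx hx2
    exact mem_VB hN0 hx hx2 h0 h3

/-- BLIND LEMMA.  For a vertical segment `{0} × [0, L)`: slopes `s h` (the line through `(0, h)`), all of them small, such that
the lines cover the half strip to the left of the segment, and over `[d, 2]` they stay in a compact set of small measure. -/
theorem blind {L d ε ρ : ℝ} (hL : 0 < L) (hd : 0 < d) (hε : 0 < ε) (hρ : 0 < ρ) :
    ∃ (s : ℝ → ℝ) (K : Set (ℝ × ℝ)), (∀ h, |s h| ≤ ρ) ∧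
      (∀ u v : ℝ, u ≤ 0 → 0 ≤ v → v < L → ∃ h : ℝ, 0 ≤ h ∧ h < L ∧ h + s h * u = v) ∧
      IsCompact K ∧ volume K ≤ ENNReal.ofReal ε ∧
      ∀ h x : ℝ, 0 ≤ h → h < L → d ≤ x → x ≤ 2 → (x, h + s h * x) ∈ K := by
  obtain ⟨s, K, h1, h2, h3, h4, h5⟩ := blind1 (d := d) (ε := ε / L) (ρ := ρ / L) hd (by positivity)
    (by positivity)
  let A : ℝ × ℝ → ℝ × ℝ := fun q => (q.1, L * q.2)
  have hA : Continuous A := by fun_prop
  refine ⟨fun h => L * s (h / L), A '' K, ?_, ?_, h3.image hA, ?_, ?_⟩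
  · intro h
    rw [abs_mul, abs_of_pos hL]
    calc L * |s (h / L)| ≤ L * (ρ / L) := mul_le_mul_of_nonneg_left (h1 _) hL.le
      _ = ρ := by field_simp
  · intro u v hu h0 hv
    obtain ⟨h, h6, h7, h8⟩ := h2 u (v / L) hu (by positivity) ((div_lt_one hL).2 hv)
    refine ⟨L * h, by positivity, by nlinarith, ?_⟩
    have e : L * h / L = h := by field_simp
    simp only [e]
    rw [mul_assoc, ← mul_add, h8]
    field_simp
  · have e : A '' K = (fun q : ℝ × ℝ => (q.1, L⁻¹ * q.2)) ⁻¹' K := by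
      ext ⟨x, y⟩
      simp only [mem_image, mem_preimage, A, Prod.mk.injEq, Prod.exists]
      constructor
      · rintro ⟨a, b, hab, rfl, rfl⟩
        rwa [inv_mul_cancel_left₀ hL.ne']
      · intro h
        exact ⟨x, L⁻¹ * y, h, rfl, mul_inv_cancel_left₀ hL.ne' _⟩
    have hmeas : MeasurableSet (A '' K) := (h3.image hA).isClosed.measurableSet
    rw [Measure.volume_eq_prod, Measure.prod_apply hmeas, e]
    have hsec : ∀ x : ℝ, volume (Prod.mk x ⁻¹' ((fun q : ℝ × ℝ => (q.1, L⁻¹ * q.2)) ⁻¹' K)) =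
        ENNReal.ofReal L * volume (Prod.mk x ⁻¹' K) := by
      intro x
      have : Prod.mk x ⁻¹' ((fun q : ℝ × ℝ => (q.1, L⁻¹ * q.2)) ⁻¹' K) =
          (fun y => L⁻¹ * y) ⁻¹' (Prod.mk x ⁻¹' K) := rfl
      rw [this, Real.volume_preimage_mul_left (inv_ne_zero hL.ne'), inv_inv, abs_of_pos hL]
    simp only [hsec]
    rw [lintegral_const_mul _ (measurable_measure_prodMk_left h3.isClosed.measurableSet),
      ← Measure.prod_apply h3.isClosed.measurableSet, ← Measure.volume_eq_prod]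
    calc ENNReal.ofReal L * volume K ≤ ENNReal.ofReal L * ENNReal.ofReal (ε / L) :=
          mul_le_mul_right h4 _
      _ = ENNReal.ofReal ε := by
          rw [← ENNReal.ofReal_mul hL.le]
          congr 1
          field_simp
  · intro h x h0 hh hx hx2
    refine ⟨(x, h / L + s (h / L) * x), h5 _ _ (by positivity) ((div_lt_one hL).2 hh) hx hx2, ?_⟩
    simp only [A, Prod.mk.injEq, true_and]
    field_simp

end Pool.Agent.Lib.MP_6b55e5_an.OS.BL
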