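import Pool.Agent.Lib.MP_6b55e5_an.OS.Spec

/-!
# CS: the cell step (MP_6b55e5_an, folder OS)
-/

set_option autoImplicit false

namespace Pool.Agent.Lib.MP_6b55e5_an.OS

open MeasureTheory Set Filter Topology
open scoped ENNReal

namespace CSM

/-! ### Counting cells -/

/-- The half open cell of side `s`. -/
def hc (s : ℝ) (i : ℤ × ℤ) : Set (ℝ × ℝ) := Ico (i.1 * s) ((i.1 + 1) * s) ×ˢ Ico (i.2 * s) ((i.2 + 1) * s)

lemma Ico_disj {s : ℝ} (hs : 0 < s) {i j : ℤ} (h : i ≠ j) :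
    Disjoint (Ico ((i : ℝ) * s) ((i + 1) * s)) (Ico ((j : ℝ) * s) ((j + 1) * s)) := by
  rw [Set.disjoint_left]
  rintro x ⟨h1, h2⟩ ⟨h3, h4⟩
  apply h
  have h5 : (i : ℝ) < j + 1 := by
    by_contra hc
    push Not at hc
    nlinarith
  have h6 : (j : ℝ) < i + 1 := by
    by_contra hc
    push Not at hc
    nlinarith
  have h7 : i < j + 1 := by exact_mod_cast h5
  have h8 : j < i + 1 := by exact_mod_cast h6
  omega

lemma hc_disj {s : ℝ} (hs : 0 < s) {i j : ℤ × ℤ} (h : i ≠ j) : Disjoint (hc s i) (hc s j) := by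
  unfold hc
  rw [Set.disjoint_prod]
  by_cases h1 : i.1 = j.1
  · right
    apply Ico_disj hs
    intro h2
    exact h (Prod.ext h1 h2)
  · left
    exact Ico_disj hs h1

lemma hc_vol {s : ℝ} (hs : 0 < s) (i : ℤ × ℤ) : volume (hc s i) = ENNReal.ofReal (s ^ 2) := by
  unfold hc
  rw [Measure.volume_eq_prod, Measure.prod_prod, Real.volume_Ico, Real.volume_Ico,
    ← ENNReal.ofReal_mul (by nlinarith)]
  congr 1
  ring

/-- the cells of side `s` that meet a compact null set have small total area -/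
theorem count_cells {F : Set (ℝ × ℝ)} (hF : IsCompact F) (h0 : volume F = 0) {ε : ℝ} (hε : 0 < ε) :
    ∃ s₀ : ℝ, 0 < s₀ ∧ ∀ s : ℝ, 0 < s → s < s₀ → ∀ J : Finset (ℤ × ℤ),
      (∀ i ∈ J, ((Icc ((i.1 : ℝ) * s) ((i.1 + 1) * s) ×ˢ Icc ((i.2 : ℝ) * s) ((i.2 + 1) * s)) ∩ F).Nonempty) →
      (J.card : ℝ) * s ^ 2 ≤ ε := by
  have h1 := tendsto_measure_cthickening_of_isCompact (μ := (volume : Measure (ℝ × ℝ))) hF
  rw [h0] at h1
  have h2 : ∀ᶠ r in 𝓝 (0 : ℝ), volume (Metric.cthickening r F) < ENNReal.ofReal ε :=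
    h1.eventually (gt_mem_nhds (by simpa using hε))
  obtain ⟨s₀, hs₀, h3⟩ := Metric.eventually_nhds_iff.1 h2
  refine ⟨s₀, hs₀, fun s hs hs2 J hJ => ?_⟩
  have h4 : volume (Metric.cthickening s F) < ENNReal.ofReal ε := by
    apply h3
    rw [Real.dist_eq, sub_zero, abs_of_pos hs]
    exact hs2
  have h5 : (⋃ i ∈ J, hc s i) ⊆ Metric.cthickening s F := by
    intro q hq
    simp only [mem_iUnion] at hq
    obtain ⟨i, hi, hq⟩ := hq
    obtain ⟨p, hp, hpF⟩ := hJ i hi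
    refine Metric.mem_cthickening_of_dist_le q p s F hpF ?_
    unfold hc at hq
    obtain ⟨⟨a1, a2⟩, a3, a4⟩ := hq
    obtain ⟨⟨b1, b2⟩, b3, b4⟩ := hp
    rw [Prod.dist_eq, Real.dist_eq, Real.dist_eq]
    apply max_le <;> rw [abs_le] <;> constructor <;> nlinarith
  have h6 : volume (⋃ i ∈ J, hc s i) = J.card * ENNReal.ofReal (s ^ 2) := by
    rw [measure_biUnion_finset]
    · rw [Finset.sum_congr rfl (fun i _ => hc_vol hs i), Finset.sum_const, nsmul_eq_mul]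
    · intro i _ j _ hij
      exact hc_disj hs hij
    · intro i _
      unfold hc
      exact measurableSet_Ico.prod measurableSet_Ico
  have h7 : (J.card : ℝ≥0∞) * ENNReal.ofReal (s ^ 2) < ENNReal.ofReal ε := by
    rw [← h6]
    exact (measure_mono h5).trans_lt h4
  have h8 : ENNReal.ofReal ((J.card : ℝ) * s ^ 2) < ENNReal.ofReal ε := by
    rw [ENNReal.ofReal_mul (Nat.cast_nonneg _), ENNReal.ofReal_natCast]
    exact h7
  exact ((ENNReal.ofReal_lt_ofReal_iff hε).1 h8).le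


/-! ### Thickening -/

lemma EE_mono {X X' : Set ℝ} {M M' : Set (ℝ × ℝ)} (hX : X ⊆ X') (hM : M ⊆ M') : EE X M ⊆ EE X' M' :=
  fun _ ⟨h1, q, h2, h3⟩ => ⟨hX h1, q, hM h2, h3⟩

lemma EE_compact {X : Set ℝ} {M : Set (ℝ × ℝ)} (hX : IsCompact X) (hM : IsCompact M) : IsCompact (EE X M) := by
  have h : EE X M = (fun t : ℝ × (ℝ × ℝ) => (t.1, val t.1 t.2)) '' (X ×ˢ M) := by
    ext p
    constructor
    · rintro ⟨h1, q, h2, h3⟩
      exact ⟨(p.1, q), ⟨h1, h2⟩, Prod.ext rfl h3.symm⟩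
    · rintro ⟨⟨x, q⟩, ⟨h1, h2⟩, rfl⟩
      exact ⟨h1, q, h2, rfl⟩
  rw [h]
  refine (hX.prod hM).image ?_
  unfold val
  fun_prop

lemma val_sub (x : ℝ) (q q' : ℝ × ℝ) {κ B : ℝ} (hx : |x| ≤ B) (h : dist q q' ≤ κ) :
    |val x q - val x q'| ≤ κ * (1 + B) := by
  rw [Prod.dist_eq, Real.dist_eq, Real.dist_eq] at h
  have h1 := (le_max_left _ _).trans h
  have h2 := (le_max_right _ _).trans h
  have h3 : val x q - val x q' = (q.2 - q'.2) + (q.1 - q'.1) * x := by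
    unfold val
    ring
  rw [h3]
  refine (abs_add_le _ _).trans ?_
  rw [abs_mul]
  have h4 : |q.1 - q'.1| * |x| ≤ κ * B := mul_le_mul h1 hx (abs_nonneg _) ((abs_nonneg _).trans h1)
  linarith

lemma sem {X : Set ℝ} {M : Set (ℝ × ℝ)} (hX : IsCompact X) (hM : IsCompact M) {ε : ℝ} (hε : 0 < ε) :
    ∃ κ : ℝ, 0 < κ ∧ volume (EE X (Metric.cthickening κ M)) ≤ volume (EE X M) + ENNReal.ofReal ε := by
  have hK := EE_compact hX hM
  have h1 := tendsto_measure_cthickening_of_isCompact (μ := (volume : Measure (ℝ × ℝ))) hK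
  have hlt : volume (EE X M) < volume (EE X M) + ENNReal.ofReal ε :=
    ENNReal.lt_add_right hK.measure_lt_top.ne (by simpa using hε)
  have h2 : ∀ᶠ r in 𝓝 (0 : ℝ), volume (Metric.cthickening r (EE X M)) < volume (EE X M) + ENNReal.ofReal ε :=
    h1.eventually (gt_mem_nhds hlt)
  obtain ⟨s₀, hs₀, h3⟩ := Metric.eventually_nhds_iff.1 h2
  obtain ⟨B, hB⟩ := hX.isBounded.exists_norm_le
  have hB' : ∀ x ∈ X, |x| ≤ |B| := fun x hx => (hB x hx).trans (le_abs_self B)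
  refine ⟨s₀ / 2 / (1 + |B|), by positivity, ?_⟩
  have h4 : volume (Metric.cthickening (s₀ / 2) (EE X M)) < volume (EE X M) + ENNReal.ofReal ε := by
    apply h3
    rw [Real.dist_eq, sub_zero, abs_of_pos (by positivity)]
    linarith
  refine (measure_mono ?_).trans h4.le
  rintro p ⟨hp, q, hq, hpq⟩
  rw [hM.cthickening_eq_biUnion_closedBall (by positivity)] at hq
  simp only [mem_iUnion] at hq
  obtain ⟨q', hq', hqq⟩ := hq
  rw [Metric.mem_closedBall] at hqq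
  refine Metric.mem_cthickening_of_dist_le p (p.1, val p.1 q') _ _ ⟨hp, q', hq', rfl⟩ ?_
  rw [Prod.dist_eq, dist_self, Real.dist_eq, hpq]
  apply max_le (by positivity)
  have := val_sub p.1 q q' (hB' _ hp) hqq
  have h5 : s₀ / 2 / (1 + |B|) * (1 + |B|) = s₀ / 2 := by field_simp
  rwa [h5] at this

/-! ### Finite families -/

lemma pos_lb {ι : Type*} (J : Finset ι) (f : ι → ℝ) (h : ∀ i ∈ J, 0 < f i) :
    ∃ κ : ℝ, 0 < κ ∧ ∀ i ∈ J, κ ≤ f i := by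
  classical
  induction J using Finset.induction_on with
  | empty => exact ⟨1, one_pos, by simp⟩
  | insert a s _ ih =>
    obtain ⟨κ, h1, h2⟩ := ih (fun i hi => h i (Finset.mem_insert_of_mem hi))
    have h3 := h a (Finset.mem_insert_self a s)
    refine ⟨min κ (f a), lt_min h1 h3, fun i hi => ?_⟩
    rcases Finset.mem_insert.1 hi with rfl | hi
    · exact min_le_right _ _
    · exact (min_le_left _ _).trans (h2 i hi)

lemma distinct {ι : Type*} (J : Finset ι) (a : ι → ℝ) {κ : ℝ} (hκ : 0 < κ) :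
    ∃ w : ι → ℝ, (∀ i ∈ J, |w i - a i| ≤ κ) ∧ ∃ ρ : ℝ, 0 < ρ ∧ ∀ i ∈ J, ∀ j ∈ J, i ≠ j → 2 * ρ < |w i - w j| := by
  classical
  have h1 : ∃ w : ι → ℝ, (∀ i ∈ J, |w i - a i| ≤ κ) ∧ ∀ i ∈ J, ∀ j ∈ J, i ≠ j → w i ≠ w j := by
    induction J using Finset.induction_on with
    | empty => exact ⟨a, by simp, by simp⟩
    | insert b s hb ih =>
      obtain ⟨w, h1, h2⟩ := ih
      obtain ⟨t, ht, ht2⟩ := (Set.Ioo_infinite (show a b - κ < a b + κ by linarith)).exists_notMem_finset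
        (s.image w)
      have hne : ∀ i ∈ s, i ≠ b := fun i hi h => hb (h ▸ hi)
      refine ⟨Function.update w b t, fun i hi => ?_, fun i hi j hj hij => ?_⟩
      · rcases Finset.mem_insert.1 hi with rfl | hi
        · rw [Function.update_self, abs_le]
          constructor <;> linarith [ht.1, ht.2]
        · rw [Function.update_of_ne (hne i hi)]
          exact h1 i hi
      · by_cases ei : i = b
        · have ej : j ≠ b := fun e => hij (ei.trans e.symm)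
          have hj' : j ∈ s := (Finset.mem_insert.1 hj).resolve_left ej
          rw [ei, Function.update_self, Function.update_of_ne ej]
          intro h
          exact ht2 (h ▸ Finset.mem_image_of_mem w hj')
        · have hi' : i ∈ s := (Finset.mem_insert.1 hi).resolve_left ei
          by_cases ej : j = b
          · rw [ej, Function.update_self, Function.update_of_ne ei]
            intro h
            exact ht2 (h ▸ Finset.mem_image_of_mem w hi')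
          · have hj' : j ∈ s := (Finset.mem_insert.1 hj).resolve_left ej
            rw [Function.update_of_ne ei, Function.update_of_ne ej]
            exact h2 i hi' j hj' hij
  obtain ⟨w, h2, h3⟩ := h1
  refine ⟨w, h2, ?_⟩
  obtain ⟨κ', h4, h5⟩ := pos_lb J.offDiag (fun t => |w t.1 - w t.2|) (by
    rintro ⟨i, j⟩ hij
    rw [Finset.mem_offDiag] at hij
    exact abs_pos.2 (sub_ne_zero.2 (h3 i hij.1 j hij.2.1 hij.2.2)))
  refine ⟨κ' / 4, by positivity, fun i hi j hj hij => ?_⟩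
  have h6 := h5 (i, j) (Finset.mem_offDiag.2 ⟨hi, hj, hij⟩)
  simp only at h6
  linarith

/-! ### Cells -/

lemma floor_div (y : ℝ) (n : ℕ) (hn : 0 < n) : ⌊y / n⌋ = ⌊((⌊y⌋ : ℤ) : ℝ) / n⌋ := by
  have hn' : (0 : ℝ) < n := by exact_mod_cast hn
  apply eq_of_forall_le_iff
  intro m
  rw [Int.le_floor, Int.le_floor, le_div_iff₀ hn', le_div_iff₀ hn']
  have h : (m : ℝ) * n = ((m * n : ℤ) : ℝ) := by push_cast; ring
  rw [h, ← Int.le_floor, Int.cast_le]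

lemma cell_coarse {k k' : ℕ} (hk : k ≤ k') {p p' : ℝ × ℝ} (h : cell k' p = cell k' p') : cell k p = cell k p' := by
  have key : ∀ x x' : ℝ, ⌊(2 : ℝ) ^ k' * x⌋ = ⌊(2 : ℝ) ^ k' * x'⌋ → ⌊(2 : ℝ) ^ k * x⌋ = ⌊(2 : ℝ) ^ k * x'⌋ := by
    intro x x' h
    have e : ∀ x : ℝ, (2 : ℝ) ^ k * x = (2 ^ k' * x) / ((2 ^ (k' - k) : ℕ) : ℝ) := by
      intro x
      have h1 : (2 : ℝ) ^ k' = 2 ^ k * 2 ^ (k' - k) := by rw [← pow_add]; congr 1; omega
      rw [h1]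
      push_cast
      field_simp
    rw [e x, e x', floor_div _ _ (by positivity), floor_div (2 ^ k' * x') _ (by positivity), h]
  unfold cell at h ⊢
  rw [Prod.mk.injEq] at h ⊢
  exact ⟨key _ _ h.1, key _ _ h.2⟩

lemma cell_bd {k : ℕ} {p : ℝ × ℝ} {c : ℤ × ℤ} {s : ℝ} (hs : s = ((2 : ℝ) ^ k)⁻¹) (h : cell k p = c) :
    (c.1 * s ≤ p.1 ∧ p.1 ≤ c.1 * s + s) ∧ (c.2 * s ≤ p.2 ∧ p.2 ≤ c.2 * s + s) := by
  have key : ∀ (x : ℝ) (m : ℤ), ⌊(2 : ℝ) ^ k * x⌋ = m → m * s ≤ x ∧ x ≤ m * s + s := by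
    intro x m hm
    have h2 : (0 : ℝ) < 2 ^ k := by positivity
    have hs2 : s * 2 ^ k = 1 := by rw [hs]; field_simp
    have hs0 : 0 < s := by rw [hs]; positivity
    have h3 := Int.floor_le ((2 : ℝ) ^ k * x)
    have h4 := Int.lt_floor_add_one ((2 : ℝ) ^ k * x)
    rw [hm] at h3 h4
    have e : (2 : ℝ) ^ k * x * s = x := by
      rw [mul_comm ((2 : ℝ) ^ k) x, mul_assoc, mul_comm ((2 : ℝ) ^ k) s, hs2, mul_one]
    constructor
    · have := mul_le_mul_of_nonneg_right h3 hs0.le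
      rwa [e] at this
    · have := mul_le_mul_of_nonneg_right h4.le hs0.le
      rw [e] at this
      linarith
  unfold cell at h
  subst h
  exact ⟨key _ _ rfl, key _ _ rfl⟩

lemma cell_finite {N : Set (ℝ × ℝ)} (hN : IsCompact N) (k : ℕ) : (cell k '' N).Finite := by
  obtain ⟨B, hB⟩ := hN.isBounded.exists_norm_le
  refine (Set.finite_Icc ((-(⌈(2 : ℝ) ^ k * |B|⌉ + 1), -(⌈(2 : ℝ) ^ k * |B|⌉ + 1)) : ℤ × ℤ)
    (⌈(2 : ℝ) ^ k * |B|⌉ + 1, ⌈(2 : ℝ) ^ k * |B|⌉ + 1)).subset ?_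
  rintro _ ⟨p, hp, rfl⟩
  have h1 := (hB p hp).trans (le_abs_self B)
  rw [Prod.norm_def, Real.norm_eq_abs, Real.norm_eq_abs] at h1
  have key : ∀ x : ℝ, |x| ≤ |B| → -(⌈(2 : ℝ) ^ k * |B|⌉ + 1) ≤ ⌊(2 : ℝ) ^ k * x⌋ ∧
      ⌊(2 : ℝ) ^ k * x⌋ ≤ ⌈(2 : ℝ) ^ k * |B|⌉ + 1 := by
    intro x hx
    have h2 : (0 : ℝ) < 2 ^ k := by positivity
    have h3 := abs_le.1 hx
    have h4 := Int.le_ceil ((2 : ℝ) ^ k * |B|)
    have h5 := Int.floor_le ((2 : ℝ) ^ k * x)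
    constructor
    · rw [Int.le_floor]
      push_cast
      nlinarith [h3.1]
    · have h6 : ((⌊(2 : ℝ) ^ k * x⌋ : ℤ) : ℝ) ≤ ((⌈(2 : ℝ) ^ k * |B|⌉ + 1 : ℤ) : ℝ) := by
        push_cast
        nlinarith [h3.2]
      exact_mod_cast h6
  have k1 := key p.1 ((le_max_left _ _).trans h1)
  have k2 := key p.2 ((le_max_right _ _).trans h1)
  rw [mem_Icc, Prod.le_def, Prod.le_def]
  exact ⟨⟨k1.1, k2.1⟩, ⟨k1.2, k2.2⟩⟩

lemma fine (k : ℕ) {μ : ℝ} (hμ : 0 < μ) : ∃ k' : ℕ, k < k' ∧ ((2 : ℝ) ^ k')⁻¹ < μ := by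
  obtain ⟨n, hn⟩ := exists_pow_lt_of_lt_one hμ (show (1 / 2 : ℝ) < 1 by norm_num)
  refine ⟨n + k + 1, by omega, ?_⟩
  have h1 : ((2 : ℝ) ^ (n + k + 1))⁻¹ = (1 / 2 : ℝ) ^ n * (1 / 2) ^ (k + 1) := by
    rw [← inv_pow, ← pow_add]
    norm_num [add_assoc]
  rw [h1]
  have h2 : (1 / 2 : ℝ) ^ (k + 1) ≤ 1 := pow_le_one₀ (by norm_num) (by norm_num)
  have h3 : (0 : ℝ) < (1 / 2 : ℝ) ^ n := by positivity
  nlinarith

/-! ### One cell -/

lemma one_cell (hPL : SpecPL) {N : Set (ℝ × ℝ)} (hN01 : ∀ p ∈ N, p.1 ∈ Icc (0 : ℝ) 1) {R : ℝ} {k : ℕ}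
    {D : ℤ × ℤ → Set (ℝ × ℝ)} {ρ : ℝ} (hρ : 0 < ρ) (hL : Lev N k D ρ)
    (hR : ∀ p ∈ N, ∀ q ∈ D (cell k p), |q.1| ≤ R) {k₁ : ℕ} (hk : k ≤ k₁) {s : ℝ} (hs : s = ((2 : ℝ) ^ k₁)⁻¹)
    (hs2 : s ≤ 1 / 2) (hA : (1 + 2 * |R|) * s ≤ ρ / 4) {ε₁ : ℝ} (hε₁ : 0 < ε₁) (c : ℤ × ℤ)
    (hc : ∃ p ∈ N, cell k₁ p = c) :
    ∃ M : Set (ℝ × ℝ), IsCompact M ∧ (∀ p ∈ N, cell k₁ p = c → ∃ q ∈ M, val p.1 q = p.2) ∧
      volume (EE (Icc (c.1 * s) 2) M) ≤ ENNReal.ofReal ((1 + 2 * |R|) * s ^ 2 + ε₁) ∧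
      ∀ q ∈ M, ∀ p ∈ N, cell k₁ p = c → Metric.closedBall q (ρ / 2) ⊆ D (cell k p) := by
  obtain ⟨p₀, hp₀, hpc⟩ := hc
  obtain ⟨q₀, hq₀, hball⟩ := hL p₀ hp₀
  have hs0 : 0 < s := by rw [hs]; positivity
  have ha : |q₀.1| ≤ |R| := (hR p₀ hp₀ q₀ (hball (Metric.mem_closedBall_self hρ.le))).trans (le_abs_self R)
  have hR0 := abs_nonneg R
  have ha' := abs_le.1 ha
  have h01 := hN01 p₀ hp₀
  have hb₀ := cell_bd hs hpc
  have hx0 : (0 : ℝ) ≤ c.1 * s := by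
    have h1 : (0 : ℤ) ≤ c.1 := by
      rw [← hpc]
      unfold cell
      have := h01.1
      positivity
    have h2 : (0 : ℝ) ≤ (c.1 : ℝ) := by exact_mod_cast h1
    positivity
  have hx1 : c.1 * s + s ≤ 3 / 2 := by linarith [hb₀.1.1, h01.2]
  obtain ⟨M, hM1, hM2, hM3, hM4⟩ := hPL (c.1 * s) s ((1 + 2 * |R|) * s) q₀.1 (c.2 * s - q₀.1 * (c.1 * s) - |R| * s)
    (ρ / 4) ε₁ hx0 hs0 hx1 (by positivity) (by positivity) hε₁
  have key : ∀ p ∈ N, cell k₁ p = c → p.1 ∈ Icc (c.1 * s) (c.1 * s + s) ∧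
      p.2 ∈ Icc (c.2 * s - q₀.1 * (c.1 * s) - |R| * s + q₀.1 * p.1)
        (c.2 * s - q₀.1 * (c.1 * s) - |R| * s + q₀.1 * p.1 + (1 + 2 * |R|) * s) := by
    intro p hp hpc'
    have hb := cell_bd hs hpc'
    have h1 : |q₀.1 * (p.1 - c.1 * s)| ≤ |R| * s := by
      rw [abs_mul]
      refine mul_le_mul ha ?_ (abs_nonneg _) hR0
      rw [abs_le]
      constructor <;> linarith [hb.1.1, hb.1.2]
    have h2 := abs_le.1 h1
    refine ⟨⟨hb.1.1, hb.1.2⟩, ?_, ?_⟩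
    · nlinarith [hb.2.1, h2.2]
    · nlinarith [hb.2.2, h2.1]
  refine ⟨M, hM1, ?_, ?_, ?_⟩
  · intro p hp hpc'
    exact hM3 p.1 (key p hp hpc').1 p.2 (key p hp hpc').2
  · refine hM4.trans (ENNReal.ofReal_le_ofReal (le_of_eq ?_))
    ring
  · intro q hq p hp hpc'
    have hcell : cell k p = cell k p₀ := cell_coarse hk (hpc'.trans hpc.symm)
    rw [hcell]
    refine Subset.trans (Metric.closedBall_subset_closedBall' ?_) hball
    have h1 := hM2 q hq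
    have h2 := (key p₀ hp₀ hpc).2
    have h3 : q₀.2 = p₀.2 - q₀.1 * p₀.1 := by
      rw [← hq₀]
      unfold val
      ring
    have h4 : dist q q₀ ≤ ρ / 2 := by
      rw [Prod.dist_eq, Real.dist_eq, Real.dist_eq]
      apply max_le
      · linarith [h1.1]
      · rw [abs_le, h3]
        constructor <;> linarith [h1.2.1, h1.2.2, h2.1, h2.2]
    linarith

end CSM

open CSM in
/-- CS. -/
theorem specCS (hPL : SpecPL) : SpecCS := by
  intro N hN h0 hN01 R k D ρ hρ hL hR ε hε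
  have hR0 := abs_nonneg R
  have hApos : 0 < 1 + 2 * |R| := by positivity
  obtain ⟨s₀, hs₀, hcount⟩ := count_cells hN h0 (show 0 < ε / (2 * (1 + 2 * |R|)) by positivity)
  obtain ⟨k₁, hk₁, hs1⟩ := fine k (show 0 < min (min s₀ (1 / 2)) (ρ / 4 / (1 + 2 * |R|)) by positivity)
  obtain ⟨s, hs⟩ : ∃ s : ℝ, s = ((2 : ℝ) ^ k₁)⁻¹ := ⟨_, rfl⟩
  rw [← hs] at hs1
  have hspos : 0 < s := by rw [hs]; positivity
  have hss₀ : s < s₀ := hs1.trans_le ((min_le_left _ _).trans (min_le_left _ _))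
  have hs12 : s ≤ 1 / 2 := (hs1.trans_le ((min_le_left _ _).trans (min_le_right _ _))).le
  have hsA : (1 + 2 * |R|) * s ≤ ρ / 4 := by
    have h1 := (hs1.trans_le (min_le_right _ _)).le
    rw [le_div_iff₀ hApos] at h1
    linarith
  obtain ⟨J, hJ⟩ : ∃ J : Finset (ℤ × ℤ), ∀ c, c ∈ J ↔ ∃ p ∈ N, cell k₁ p = c :=
    ⟨(cell_finite hN k₁).toFinset, fun c => by simp [Set.Finite.mem_toFinset]⟩
  have hJcard : (J.card : ℝ) * s ^ 2 ≤ ε / (2 * (1 + 2 * |R|)) := by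
    apply hcount s hspos hss₀ J
    intro c hc
    obtain ⟨p, hp, hpc⟩ := (hJ c).1 hc
    have hb := cell_bd hs hpc
    refine ⟨p, ⟨⟨hb.1.1, ?_⟩, hb.2.1, ?_⟩, hp⟩
    · linarith [hb.1.2]
    · linarith [hb.2.2]
  have hε₁ : 0 < ε / (4 * (J.card + 1)) := by positivity
  obtain ⟨ε₁, hε₁e⟩ : ∃ ε₁ : ℝ, ε₁ = ε / (4 * (J.card + 1)) := ⟨_, rfl⟩
  rw [← hε₁e] at hε₁
  have h1 : ∀ c, ∃ M : Set (ℝ × ℝ), c ∈ J → IsCompact M ∧ (∀ p ∈ N, cell k₁ p = c → ∃ q ∈ M, val p.1 q = p.2) ∧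
      volume (EE (Icc (c.1 * s) 2) M) ≤ ENNReal.ofReal ((1 + 2 * |R|) * s ^ 2 + ε₁) ∧
      ∀ q ∈ M, ∀ p ∈ N, cell k₁ p = c → Metric.closedBall q (ρ / 2) ⊆ D (cell k p) := by
    intro c
    by_cases hc : c ∈ J
    · obtain ⟨M, hM⟩ := one_cell hPL hN01 hρ hL hR hk₁.le hs hs12 hsA hε₁ c ((hJ c).1 hc)
      exact ⟨M, fun _ => hM⟩
    · exact ⟨∅, fun h => absurd h hc⟩
  choose M hM using h1
  have h2 : ∀ c, ∃ κ : ℝ, 0 < κ ∧ (c ∈ J → volume (EE (Icc (c.1 * s) 2) (Metric.cthickening κ (M c))) ≤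
      volume (EE (Icc (c.1 * s) 2) (M c)) + ENNReal.ofReal ε₁) := by
    intro c
    by_cases hc : c ∈ J
    · obtain ⟨κ, h3, h4⟩ := sem (X := Icc ((c.1 : ℝ) * s) 2) isCompact_Icc (hM c hc).1 hε₁
      exact ⟨κ, h3, fun _ => h4⟩
    · exact ⟨1, one_pos, fun h => absurd h hc⟩
  choose κf hκf0 hκf using h2
  obtain ⟨κ₀, hκ₀, hκ₀f⟩ := pos_lb J κf (fun c _ => hκf0 c)
  obtain ⟨κ, hκe⟩ : ∃ κ : ℝ, κ = min (min κ₀ (ρ / 2)) 1 := ⟨_, rfl⟩
  have hκ : 0 < κ := by rw [hκe]; positivity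
  have hκ0 : κ ≤ κ₀ := by rw [hκe]; exact (min_le_left _ _).trans (min_le_left _ _)
  have hκρ : κ ≤ ρ / 2 := by rw [hκe]; exact (min_le_left _ _).trans (min_le_right _ _)
  have hκ1 : κ ≤ 1 := by rw [hκe]; exact min_le_right _ _
  obtain ⟨k', hk', hs1'⟩ := fine k₁ (show 0 < min (κ / 4) (ε / 8) / (|R| + 2) by positivity)
  obtain ⟨s', hs'⟩ : ∃ s' : ℝ, s' = ((2 : ℝ) ^ k')⁻¹ := ⟨_, rfl⟩
  rw [← hs'] at hs1'
  have hs'pos : 0 < s' := by rw [hs']; positivity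
  have hsR : (|R| + 2) * s' ≤ min (κ / 4) (ε / 8) := by
    rw [lt_div_iff₀ (by positivity)] at hs1'
    linarith
  have hsκ : (|R| + 2) * s' ≤ κ / 4 := hsR.trans (min_le_left _ _)
  have hsε : (|R| + 2) * s' ≤ ε / 8 := hsR.trans (min_le_right _ _)
  obtain ⟨J₂, hJ₂⟩ : ∃ J₂ : Finset (ℤ × ℤ), ∀ c, c ∈ J₂ ↔ ∃ p ∈ N, cell k' p = c :=
    ⟨(cell_finite hN k').toFinset, fun c => by simp [Set.Finite.mem_toFinset]⟩
  have h3 : ∀ c, ∃ p q : ℝ × ℝ, c ∈ J₂ → p ∈ N ∧ cell k' p = c ∧ q ∈ M (cell k₁ p) ∧ val p.1 q = p.2 := by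
    intro c
    by_cases hc : c ∈ J₂
    · obtain ⟨p, hp, hpc⟩ := (hJ₂ c).1 hc
      obtain ⟨q, hq, hpq⟩ := (hM (cell k₁ p) ((hJ _).2 ⟨p, hp, rfl⟩)).2.1 p hp rfl
      exact ⟨p, q, fun _ => ⟨hp, hpc, hq, hpq⟩⟩
    · exact ⟨0, 0, fun h => absurd h hc⟩
  choose pf qf hpq using h3
  obtain ⟨δ, hδe⟩ : ∃ δ : ℝ, δ = min (κ / 8) (ε / 16) := ⟨_, rfl⟩
  have hδ : 0 < δ := by rw [hδe]; positivity
  have hδκ : δ ≤ κ / 8 := by rw [hδe]; exact min_le_left _ _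
  have hδε : δ ≤ ε / 16 := by rw [hδe]; exact min_le_right _ _
  obtain ⟨w, hw, ρ₀, hρ₀, hwne⟩ := distinct J₂ (fun c => (qf c).1) hδ
  obtain ⟨ρ', hρ'e⟩ : ∃ ρ' : ℝ, ρ' = min ρ₀ δ := ⟨_, rfl⟩
  have hρ' : 0 < ρ' := by rw [hρ'e]; positivity
  have hρ'0 : ρ' ≤ ρ₀ := by rw [hρ'e]; exact min_le_left _ _
  have hρ'δ : ρ' ≤ δ := by rw [hρ'e]; exact min_le_right _ _
  -- facts about one fine cell
  have hF : ∀ c ∈ J₂, |w c| ≤ |R| + 1 ∧
      ∀ q ∈ Icc (w c - ρ') (w c + ρ') ×ˢ Icc ((pf c).2 - w c * (pf c).1 - ((|R| + 2) * s' + ρ'))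
        ((pf c).2 - w c * (pf c).1 + ((|R| + 2) * s' + ρ')), dist q (qf c) ≤ κ := by
    intro c hc
    obtain ⟨g1, g2, g3, g4⟩ := hpq c hc
    have g5 := abs_le.1 (hw c hc)
    have g6 : |(qf c).1| ≤ |R| := by
      have e1 := (hM (cell k₁ (pf c)) ((hJ _).2 ⟨pf c, g1, rfl⟩)).2.2.2 (qf c) g3 (pf c) g1 rfl
        (Metric.mem_closedBall_self (by positivity))
      exact (hR (pf c) g1 (qf c) e1).trans (le_abs_self R)
    have g7 := abs_le.1 g6
    refine ⟨?_, ?_⟩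
    · rw [abs_le]
      constructor <;> linarith [g5.1, g5.2]
    · rintro q ⟨⟨a1, a2⟩, a3, a4⟩
      have g8 : (qf c).2 = (pf c).2 - (qf c).1 * (pf c).1 := by
        rw [← g4]
        unfold val
        ring
      have g9 := hN01 _ g1
      have g10 : |((qf c).1 - w c) * (pf c).1| ≤ δ := by
        rw [abs_mul]
        have e1 : |(qf c).1 - w c| ≤ δ := by rw [abs_sub_comm]; exact hw c hc
        have e2 : |(pf c).1| ≤ 1 := by rw [abs_le]; constructor <;> linarith [g9.1, g9.2]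
        calc |(qf c).1 - w c| * |(pf c).1| ≤ δ * 1 := mul_le_mul e1 e2 (abs_nonneg _) hδ.le
          _ = δ := mul_one δ
      have g11 := abs_le.1 g10
      rw [Prod.dist_eq, Real.dist_eq, Real.dist_eq]
      apply max_le
      · rw [abs_le]
        constructor <;> linarith [g5.1, g5.2]
      · rw [abs_le, g8]
        constructor <;> linarith [g11.1, g11.2]
  have hsub : ∀ p ∈ N, Icc (w (cell k' p) - ρ') (w (cell k' p) + ρ') ×ˢ
      Icc ((pf (cell k' p)).2 - w (cell k' p) * (pf (cell k' p)).1 - ((|R| + 2) * s' + ρ'))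
        ((pf (cell k' p)).2 - w (cell k' p) * (pf (cell k' p)).1 + ((|R| + 2) * s' + ρ')) ⊆
      Metric.cthickening κ (M (cell k₁ p)) := by
    intro p hp q hq
    have hc : cell k' p ∈ J₂ := (hJ₂ _).2 ⟨p, hp, rfl⟩
    obtain ⟨g1, g2, g3, g4⟩ := hpq _ hc
    rw [cell_coarse hk'.le g2] at g3
    exact Metric.mem_cthickening_of_dist_le q _ _ _ g3 ((hF _ hc).2 q hq)
  refine ⟨k', fun c => Icc (w c - ρ') (w c + ρ') ×ˢ Icc ((pf c).2 - w c * (pf c).1 - ((|R| + 2) * s' + ρ'))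
    ((pf c).2 - w c * (pf c).1 + ((|R| + 2) * s' + ρ')), ρ', hk₁.trans hk', hρ', ?_, ?_, ?_, ?_, ?_⟩
  · -- Lev
    intro p hp
    have hc : cell k' p ∈ J₂ := (hJ₂ _).2 ⟨p, hp, rfl⟩
    obtain ⟨g1, g2, g3, g4⟩ := hpq _ hc
    have b1 := cell_bd hs' (rfl : cell k' p = cell k' p)
    have b2 := cell_bd hs' g2
    refine ⟨(w (cell k' p), p.2 - w (cell k' p) * p.1), ?_, ?_⟩
    · unfold val
      ring
    · intro q hq
      rw [Metric.mem_closedBall, Prod.dist_eq, Real.dist_eq, Real.dist_eq] at hq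
      have e1 := abs_le.1 ((le_max_left _ _).trans hq)
      have e2 := abs_le.1 ((le_max_right _ _).trans hq)
      simp only at e1 e2
      have e3 : |w (cell k' p) * (p.1 - (pf (cell k' p)).1)| ≤ (|R| + 1) * s' := by
        rw [abs_mul]
        refine mul_le_mul (hF _ hc).1 ?_ (abs_nonneg _) (by positivity)
        rw [abs_le]
        constructor <;> linarith [b1.1.1, b1.1.2, b2.1.1, b2.1.2]
      have e4 := abs_le.1 e3
      have e5 : |p.2 - (pf (cell k' p)).2| ≤ s' := by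
        rw [abs_le]
        constructor <;> linarith [b1.2.1, b1.2.2, b2.2.1, b2.2.2]
      have e6 := abs_le.1 e5
      refine ⟨⟨by linarith [e1.1], by linarith [e1.2]⟩, ?_, ?_⟩
      · linarith [e2.1, e4.2, e6.1]
      · linarith [e2.2, e4.1, e6.2]
  · -- D' inside D
    intro p hp q hq
    have hc : cell k' p ∈ J₂ := (hJ₂ _).2 ⟨p, hp, rfl⟩
    obtain ⟨g1, g2, g3, g4⟩ := hpq _ hc
    rw [cell_coarse hk'.le g2] at g3
    apply (hM (cell k₁ p) ((hJ _).2 ⟨p, hp, rfl⟩)).2.2.2 _ g3 p hp rfl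
    exact Metric.mem_closedBall.2 (((hF _ hc).2 q hq).trans hκρ)
  · -- compact and small
    intro p hp
    refine ⟨isCompact_Icc.prod isCompact_Icc, ?_⟩
    rintro q ⟨⟨a1, a2⟩, a3, a4⟩ q' ⟨⟨b1, b2⟩, b3, b4⟩
    rw [Prod.dist_eq, Real.dist_eq, Real.dist_eq]
    apply max_le
    · rw [abs_le]
      constructor <;> linarith
    · rw [abs_le]
      constructor <;> linarith
  · -- different cells, different slopes
    rintro p hp p' hp' hne q ⟨⟨a1, a2⟩, -⟩ q' ⟨⟨b1, b2⟩, -⟩ he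
    have g := hwne _ ((hJ₂ _).2 ⟨p, hp, rfl⟩) _ ((hJ₂ _).2 ⟨p', hp', rfl⟩) hne
    have g2 : |w (cell k' p) - w (cell k' p')| ≤ 2 * ρ' := by
      rw [abs_le]
      constructor <;> linarith
    linarith
  · -- area
    have hcov : (⋃ p ∈ N, EE (Icc p.1 2) (Icc (w (cell k' p) - ρ') (w (cell k' p) + ρ') ×ˢ
        Icc ((pf (cell k' p)).2 - w (cell k' p) * (pf (cell k' p)).1 - ((|R| + 2) * s' + ρ'))
          ((pf (cell k' p)).2 - w (cell k' p) * (pf (cell k' p)).1 + ((|R| + 2) * s' + ρ')))) ⊆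
        ⋃ c ∈ J, EE (Icc (c.1 * s) 2) (Metric.cthickening κ (M c)) := by
      refine iUnion₂_subset fun p hp => ?_
      have hcJ : cell k₁ p ∈ J := (hJ _).2 ⟨p, hp, rfl⟩
      refine Subset.trans ?_ (subset_biUnion_of_mem (u := fun c : ℤ × ℤ =>
        EE (Icc (c.1 * s) 2) (Metric.cthickening κ (M c))) hcJ)
      exact EE_mono (Icc_subset_Icc_left (cell_bd hs rfl).1.1) (hsub p hp)
    have hcl : IsClosed (⋃ c ∈ J, EE (Icc (c.1 * s) 2) (Metric.cthickening κ (M c))) :=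
      (J.finite_toSet.isCompact_biUnion fun c hc => EE_compact isCompact_Icc (hM c hc).1.cthickening).isClosed
    refine (measure_mono (closure_minimal hcov hcl)).trans ((measure_biUnion_finset_le J _).trans ?_)
    have hle : ∀ c ∈ J, volume (EE (Icc (c.1 * s) 2) (Metric.cthickening κ (M c))) ≤
        ENNReal.ofReal ((1 + 2 * |R|) * s ^ 2 + 2 * ε₁) := by
      intro c hc
      have e1 : EE (Icc (c.1 * s) 2) (Metric.cthickening κ (M c)) ⊆
          EE (Icc (c.1 * s) 2) (Metric.cthickening (κf c) (M c)) :=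
        EE_mono subset_rfl (Metric.cthickening_mono (hκ0.trans (hκ₀f c hc)) _)
      refine (measure_mono e1).trans ((hκf c hc).trans ?_)
      refine (add_le_add_left (hM c hc).2.2.1 _).trans (le_of_eq ?_)
      rw [← ENNReal.ofReal_add (by positivity) hε₁.le]
      congr 1
      ring
    refine (Finset.sum_le_sum hle).trans ?_
    rw [Finset.sum_const, nsmul_eq_mul, ← ENNReal.ofReal_natCast, ← ENNReal.ofReal_mul (Nat.cast_nonneg _)]
    apply ENNReal.ofReal_le_ofReal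
    have e1 : (J.card : ℝ) * ((1 + 2 * |R|) * s ^ 2) ≤ ε / 2 := by
      have := mul_le_mul_of_nonneg_left hJcard hApos.le
      have e2 : (1 + 2 * |R|) * (ε / (2 * (1 + 2 * |R|))) = ε / 2 := by field_simp
      rw [e2] at this
      linarith
    have e3 : (J.card : ℝ) * (2 * ε₁) ≤ ε / 2 := by
      rw [hε₁e]
      have e4 : (J.card : ℝ) * (2 * (ε / (4 * (J.card + 1)))) = ε / 2 * (J.card / (J.card + 1)) := by
        field_simp
        ring
      rw [e4]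
      have e5 : (J.card : ℝ) / (J.card + 1) ≤ 1 := by
        rw [div_le_one (by positivity)]
        linarith
      nlinarith
    linarith

end Pool.Agent.Lib.MP_6b55e5_an.OS
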