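import Pool.Agent.Lib.MP_6b55e5_an.OS.Spec

/-!
# Module FA (MP_6b55e5_an, folder OS): one unit segment in every direction
-/

set_option autoImplicit false

namespace Pool.Agent.Lib.MP_6b55e5_an.OS

open MeasureTheory Set

namespace FAM

/-- The point of the plane with the coordinates `p`. -/
def pl (p : ℝ × ℝ) : Plane := !₂[p.1, p.2]

theorem coords_pl (p : ℝ × ℝ) : coords (pl p) = p := by
  simp [coords, pl]

theorem pl_coords (x : Plane) : pl (coords x) = x := by
  ext i
  fin_cases i <;> simp [coords, pl]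

/-- The directions of the right half plane. -/
def Pos (e : Plane) : Prop := 0 < e 0 ∨ (e 0 = 0 ∧ 0 < e 1)

theorem pos_neg {e : Plane} (h : Pos e) : ¬ Pos (-e) := by
  unfold Pos at *
  simp only [PiLp.neg_apply, not_or, not_and, not_lt]
  rcases h with h | ⟨h1, h2⟩
  · exact ⟨by linarith, fun h3 => by linarith⟩
  · exact ⟨by linarith, fun _ => by linarith⟩

theorem not_pos {e : Plane} (he : ‖e‖ = 1) (h : ¬ Pos e) : Pos (-e) := by
  unfold Pos at *
  simp only [PiLp.neg_apply, not_or, not_and, not_lt] at *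
  obtain ⟨h1, h2⟩ := h
  have h3 := norm_sq_eq e
  rw [he] at h3
  rcases lt_or_eq_of_le h1 with h4 | h4
  · exact Or.inl (by linarith)
  · right
    refine ⟨by linarith, ?_⟩
    have h5 := h2 h4
    rcases lt_or_eq_of_le h5 with h6 | h6
    · linarith
    · rw [h4, h6] at h3
      norm_num at h3

theorem isCompact_NR : IsCompact NR := by
  have h : NR = coords '' NS := by
    ext p
    constructor
    · intro hp
      exact ⟨pl p, by rw [NS, mem_preimage, coords_pl]; exact hp, coords_pl p⟩
    · rintro ⟨x, hx, rfl⟩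
      exact hx
  rw [h]
  exact NS_isCompact.image coords_continuous

theorem segment_sub_swap (p e : Plane) : segment ℝ (p - e) p = segment ℝ p (p + -e) := by
  rw [← sub_eq_add_neg, segment_symm]

end FAM

open FAM

theorem specFA (hLM : SpecLM) : SpecFA := by
  classical
  obtain ⟨q, hq1, hq2, hq3⟩ := hLM NR isCompact_NR NR_null (fun p hp => hp.1)
  obtain ⟨φ, hφ, h⟩ := exists_family
  have hKc : IsCompact (KS φ) := KS_isCompact hφ
  have hK0 : volume (KS φ) = 0 := KS_null (Araw_null h)
  -- the choice for the directions of the right half plane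
  have hch : ∀ e : Plane, ‖e‖ = 1 → Pos e → ∃ x : Plane,
      (∃ p ∈ NR, e 1 = (q p).1 * e 0 ∧ 0 < e 0 ∧ x = pl p) ∨
        ((¬ ∃ p ∈ NR, e 1 = (q p).1 * e 0 ∧ 0 < e 0) ∧ segment ℝ x (x + e) ⊆ KS φ) := by
    intro e he _
    by_cases hex : ∃ p ∈ NR, e 1 = (q p).1 * e 0 ∧ 0 < e 0
    · obtain ⟨p, hp, h1, h2⟩ := hex
      exact ⟨pl p, Or.inl ⟨p, hp, h1, h2, rfl⟩⟩
    · obtain ⟨x, hx⟩ := KS_segments φ e he
      exact ⟨x, Or.inr ⟨hex, hx⟩⟩
  let P0 : Plane → Plane := fun e => if h : ‖e‖ = 1 ∧ Pos e then (hch e h.1 h.2).choose else 0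
  have hP0 : ∀ e : Plane, ‖e‖ = 1 → Pos e →
      (∃ p ∈ NR, e 1 = (q p).1 * e 0 ∧ 0 < e 0 ∧ P0 e = pl p) ∨
        ((¬ ∃ p ∈ NR, e 1 = (q p).1 * e 0 ∧ 0 < e 0) ∧ segment ℝ (P0 e) (P0 e + e) ⊆ KS φ) := by
    intro e he hp
    have h1 : P0 e = (hch e he hp).choose := by
      simp only [P0]
      rw [dif_pos ⟨he, hp⟩]
    rw [h1]
    exact (hch e he hp).choose_spec
  let P : Plane → Plane := fun e => if Pos e then P0 e else P0 (-e) - e
  have hP : ∀ e : Plane, Pos e → P e = P0 e := fun e h => if_pos h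
  have hP' : ∀ e : Plane, ¬ Pos e → P e = P0 (-e) - e := fun e h => if_neg h
  -- the segments
  have hseg : ∀ e : Plane, ‖e‖ = 1 → ∃ e' : Plane, ‖e'‖ = 1 ∧ Pos e' ∧
      segment ℝ (P e) (P e + e) = segment ℝ (P0 e') (P0 e' + e') := by
    intro e he
    by_cases hp : Pos e
    · exact ⟨e, he, hp, by rw [hP e hp]⟩
    · refine ⟨-e, by rw [norm_neg, he], not_pos he hp, ?_⟩
      rw [hP' e hp, sub_add_cancel]
      exact segment_sub_swap _ _
  set U : Set (ℝ × ℝ) := ⋃ p ∈ NR, EE (Icc p.1 2) {q p} with hU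
  have hsub1 : ∀ e : Plane, ‖e‖ = 1 →
      segment ℝ (P e) (P e + e) ⊆ coords ⁻¹' closure U ∪ KS φ := by
    intro e he
    obtain ⟨e', he', hp', hs⟩ := hseg e he
    rw [hs]
    rcases hP0 e' he' hp' with ⟨p, hp, h1, h2, h3⟩ | ⟨_, h2⟩
    · intro y hy
      left
      rw [segment_eq_image'] at hy
      obtain ⟨t, ht, rfl⟩ := hy
      have hx0 : e' 0 ≤ 1 := by
        have h4 := norm_sq_eq e'
        rw [he'] at h4
        nlinarith [sq_nonneg (e' 1)]
      have hN : p.1 ∈ Icc (0 : ℝ) 1 := hp.1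
      rw [mem_preimage]
      apply subset_closure
      rw [hU]
      simp only [mem_iUnion]
      refine ⟨p, hp, ?_, q p, rfl, ?_⟩
      · rw [h3]
        simp only [coords, pl, add_sub_cancel_left, PiLp.add_apply, PiLp.smul_apply, smul_eq_mul]
        simp only [mem_Icc, Matrix.cons_val_zero]
        constructor
        · nlinarith [ht.1, mul_nonneg ht.1 h2.le]
        · nlinarith [ht.1, ht.2, mul_le_mul ht.2 hx0 h2.le zero_le_one, hN.2]
      · rw [h3]
        simp only [coords, pl, add_sub_cancel_left, PiLp.add_apply, PiLp.smul_apply, smul_eq_mul, val]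
        simp only [Matrix.cons_val_zero, Matrix.cons_val_one]
        have h5 := hq1 p hp
        rw [val] at h5
        rw [h1, ← h5]
        ring
    · exact h2.trans subset_union_right
  have hsub2 : ∀ e : Plane, ‖e‖ = 1 →
      segment ℝ (P e) (P e + e) ⊆ Metric.cthickening 1 NS ∪ KS φ := by
    intro e he
    obtain ⟨e', he', hp', hs⟩ := hseg e he
    rw [hs]
    rcases hP0 e' he' hp' with ⟨p, hp, h1, h2, h3⟩ | ⟨_, h2⟩
    · intro y hy
      left
      rw [segment_eq_image'] at hy
      obtain ⟨t, ht, rfl⟩ := hy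
      apply Metric.mem_cthickening_of_dist_le _ (P0 e') 1 NS
      · rw [h3, NS, mem_preimage, coords_pl]
        exact hp
      · rw [dist_eq_norm, add_sub_cancel_left, add_sub_cancel_left, norm_smul, he', mul_one,
          Real.norm_eq_abs, abs_of_nonneg ht.1]
        exact ht.2
    · exact h2.trans subset_union_right
  have hnull : volume (coords ⁻¹' closure U ∪ KS φ) = 0 := measure_union_null
    (coords_measurePreserving.quasiMeasurePreserving.preimage_null hq3) hK0
  refine ⟨P, ?_, ⟨?_, ?_, ?_⟩, ?_, ?_⟩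
  · intro e he
    by_cases hp : Pos e
    · rw [hP e hp, hP' (-e) (pos_neg hp), neg_neg, sub_neg_eq_add]
    · rw [hP' e hp, hP (-e) (not_pos he hp), sub_add_cancel]
  · refine Bornology.IsBounded.subset ?_ (iUnion₂_subset hsub2)
    exact (NS_isCompact.isBounded.cthickening).union hKc.isBounded
  · exact measure_mono_null (iUnion₂_subset hsub1) hnull
  · intro e he
    exact ⟨P e, subset_biUnion_of_mem (u := fun e => segment ℝ (P e) (P e + e)) (mem_ofPred_eq ▸ he)⟩
  · refine measure_mono_null (closure_minimal (iUnion₂_subset hsub1) ?_) hnull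
    exact (isClosed_closure.preimage coords_continuous).union hKc.isClosed
  · apply not_propertyS
    intro x hx
    have hp : coords x ∈ NR := hx
    set p := coords x with hpdef
    set a := (q p).1 with ha
    set r := Real.sqrt (1 + a ^ 2) with hr
    have hr0 : 0 < r := Real.sqrt_pos.2 (by positivity)
    have hr2 : r ^ 2 = 1 + a ^ 2 := Real.sq_sqrt (by positivity)
    set e : Plane := !₂[1 / r, a / r] with hedef
    have e0 : e 0 = 1 / r := by simp [hedef]
    have e1 : e 1 = a / r := by simp [hedef]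
    have he : ‖e‖ = 1 := by
      have h1 : ‖e‖ ^ 2 = 1 := by
        rw [norm_sq_eq, e0, e1]
        field_simp
        linarith
      have h2 : 0 ≤ ‖e‖ := norm_nonneg e
      nlinarith
    have hpos : Pos e := Or.inl (by rw [e0]; positivity)
    have hPe : P e = x := by
      rw [hP e hpos]
      rcases hP0 e he hpos with ⟨p', hp', h1, h2, h3⟩ | ⟨hno, _⟩
      · have h4 : (q p').1 = (q p).1 := by
          rw [e0, e1] at h1
          field_simp at h1
          rw [← h1]
        have h5 : p' = p := hq2 hp' hp h4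
        rw [h3, h5, hpdef, pl_coords]
      · exfalso
        apply hno
        exact ⟨p, hp, by rw [e0, e1, ← ha]; ring, by rw [e0]; positivity⟩
    refine mem_iUnion₂.2 ⟨e, he, ?_⟩
    rw [hPe]
    exact left_mem_segment ℝ _ _

end Pool.Agent.Lib.MP_6b55e5_an.OS
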