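import Pool.Agent.Lib.MP_6b55e5_an.OS.Spec

/-!
# Module FIN (MP_6b55e5_an, folder OS): the closure of a bounded union of unit segments is a union of unit
segments
-/

set_option autoImplicit false

namespace Pool.Agent.Lib.MP_6b55e5_an.OS

open MeasureTheory Set Filter Topology

theorem closure_segments (P : Plane → Plane)
    (hb : Bornology.IsBounded (⋃ e ∈ {e : Plane | ‖e‖ = 1}, segment ℝ (P e) (P e + e))) :
    ∀ x ∈ closure (⋃ e ∈ {e : Plane | ‖e‖ = 1}, segment ℝ (P e) (P e + e)), ∃ p e : Plane,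
      ‖e‖ = 1 ∧ x ∈ segment ℝ p (p + e) ∧
        segment ℝ p (p + e) ⊆ closure (⋃ e ∈ {e : Plane | ‖e‖ = 1}, segment ℝ (P e) (P e + e)) := by
  intro x hx
  set E : Set Plane := ⋃ e ∈ {e : Plane | ‖e‖ = 1}, segment ℝ (P e) (P e + e) with hE
  have hK : IsCompact (closure E) := hb.isCompact_closure
  have hmem : ∀ e : Plane, ‖e‖ = 1 → ∀ s ∈ Icc (0 : ℝ) 1, P e + s • e ∈ E := by
    intro e he s hs
    refine mem_iUnion₂.2 ⟨e, he, ?_⟩
    rw [segment_eq_image']
    exact ⟨s, hs, by simp⟩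
  rw [mem_closure_iff_seq_limit] at hx
  obtain ⟨y, hy, hyx⟩ := hx
  have hch : ∀ n, ∃ (e : Plane) (t : ℝ), ‖e‖ = 1 ∧ t ∈ Icc (0 : ℝ) 1 ∧ y n = P e + t • e := by
    intro n
    obtain ⟨e, he, hs⟩ := mem_iUnion₂.1 (hy n)
    rw [segment_eq_image'] at hs
    obtain ⟨t, ht, h⟩ := hs
    refine ⟨e, t, he, ht, ?_⟩
    rw [← h]
    simp
  choose e t he ht hye using hch
  have hC : IsCompact (closure E ×ˢ (Metric.sphere (0 : Plane) 1 ×ˢ Icc (0 : ℝ) 1)) :=
    hK.prod ((isCompact_sphere 0 1).prod isCompact_Icc)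
  have hin : ∀ n, ((P (e n), (e n, t n)) : Plane × (Plane × ℝ)) ∈
      closure E ×ˢ (Metric.sphere (0 : Plane) 1 ×ˢ Icc (0 : ℝ) 1) := by
    intro n
    refine ⟨subset_closure ?_, ?_, ht n⟩
    · have := hmem (e n) (he n) 0 ⟨le_rfl, zero_le_one⟩
      simpa using this
    · simpa using he n
  obtain ⟨⟨p, ⟨e', t'⟩⟩, hlim, φ, hφ, hφl⟩ := hC.tendsto_subseq hin
  have h1 : Tendsto (fun n => P (e (φ n))) atTop (𝓝 p) :=
    (continuous_fst.tendsto _).comp hφl
  have h2 : Tendsto (fun n => e (φ n)) atTop (𝓝 e') :=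
    ((continuous_fst.comp continuous_snd).tendsto _).comp hφl
  have h3 : Tendsto (fun n => t (φ n)) atTop (𝓝 t') :=
    ((continuous_snd.comp continuous_snd).tendsto _).comp hφl
  have he' : ‖e'‖ = 1 := by simpa using hlim.2.1
  refine ⟨p, e', he', ?_, ?_⟩
  · have h4 : Tendsto (fun n => y (φ n)) atTop (𝓝 (p + t' • e')) := by
      have h5 : (fun n => y (φ n)) = fun n => P (e (φ n)) + t (φ n) • e (φ n) := by
        funext n
        exact hye _
      rw [h5]
      exact h1.add (h3.smul h2)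
    have h5 : x = p + t' • e' := tendsto_nhds_unique (hyx.comp hφ.tendsto_atTop) h4
    rw [segment_eq_image']
    exact ⟨t', hlim.2.2, by rw [h5]; simp⟩
  · intro z hz
    rw [segment_eq_image'] at hz
    obtain ⟨s, hs, rfl⟩ := hz
    have h4 : Tendsto (fun n => P (e (φ n)) + s • e (φ n)) atTop (𝓝 (p + s • e')) :=
      h1.add (h2.const_smul s)
    have h5 : p + s • (p + e' - p) = p + s • e' := by simp
    simp only [h5]
    exact mem_closure_of_tendsto h4 (Eventually.of_forall fun n => hmem _ (he _) s hs)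

end Pool.Agent.Lib.MP_6b55e5_an.OS
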