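import Pool.Agent.Lib.MP_6b55e5_an.OS.Spec

/-!
# Module LM (MP_6b55e5_an, folder OS): the limit of the cell steps
-/

set_option autoImplicit false

namespace Pool.Agent.Lib.MP_6b55e5_an.OS

open MeasureTheory Set Filter Topology

namespace LMM

/-- A level of the construction. -/
structure Stage (N : Set (ℝ × ℝ)) (R : ℝ) where
  k : ℕ
  D : ℤ × ℤ → Set (ℝ × ℝ)
  ρ : ℝ
  hρ : 0 < ρ
  lev : Lev N k D ρ
  bd : ∀ p ∈ N, ∀ q ∈ D (cell k p), |q.1| ≤ R

/-- The properties of the next level. -/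
def Next (N : Set (ℝ × ℝ)) {R : ℝ} (s t : Stage N R) (ε : ℝ) : Prop :=
  s.k < t.k ∧ (∀ p ∈ N, t.D (cell t.k p) ⊆ s.D (cell s.k p)) ∧
    (∀ p ∈ N, IsCompact (t.D (cell t.k p)) ∧
      ∀ q ∈ t.D (cell t.k p), ∀ q' ∈ t.D (cell t.k p), dist q q' ≤ ε) ∧
    (∀ p ∈ N, ∀ p' ∈ N, cell t.k p ≠ cell t.k p' →
      ∀ q ∈ t.D (cell t.k p), ∀ q' ∈ t.D (cell t.k p'), q.1 ≠ q'.1) ∧
    volume (closure (⋃ p ∈ N, EE (Icc p.1 2) (t.D (cell t.k p)))) ≤ ENNReal.ofReal ε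

theorem exists_next (hCS : SpecCS) {N : Set (ℝ × ℝ)} (hN : IsCompact N) (h0 : volume N = 0)
    (h1 : ∀ p ∈ N, p.1 ∈ Icc (0 : ℝ) 1) {R : ℝ} (s : Stage N R) {ε : ℝ} (hε : 0 < ε) :
    ∃ t : Stage N R, Next N s t ε := by
  obtain ⟨k', D', ρ', a1, a2, a3, a4, a5, a6, a7⟩ :=
    hCS N hN h0 h1 R s.k s.D s.ρ s.hρ s.lev s.bd ε hε
  exact ⟨⟨k', D', ρ', a2, a3, fun p hp q hq => s.bd p hp q (a4 p hp hq)⟩, a1, a4, a5, a6, a7⟩

/-- Different points are in different cells of all high levels. -/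
theorem cell_ne {p p' : ℝ × ℝ} (h : p ≠ p') : ∃ k₀ : ℕ, ∀ k, k₀ ≤ k → cell k p ≠ cell k p' := by
  have key : ∀ x y : ℝ, x ≠ y → ∃ k₀ : ℕ, ∀ k, k₀ ≤ k → ⌊2 ^ k * x⌋ ≠ ⌊2 ^ k * y⌋ := by
    intro x y hxy
    have hd : 0 < |x - y| := abs_pos.2 (sub_ne_zero.2 hxy)
    obtain ⟨k₀, hk₀⟩ := pow_unbounded_of_one_lt (1 / |x - y|) (one_lt_two (α := ℝ))
    refine ⟨k₀, fun k hk heq => ?_⟩
    have h1 : |2 ^ k * x - 2 ^ k * y| < 1 := Int.abs_sub_lt_one_of_floor_eq_floor heq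
    rw [← mul_sub, abs_mul, abs_of_pos (by positivity : (0 : ℝ) < 2 ^ k)] at h1
    have h2 : (2 : ℝ) ^ k₀ ≤ 2 ^ k := pow_le_pow_right₀ one_le_two hk
    have h3 : 1 < (2 : ℝ) ^ k₀ * |x - y| := by
      rw [div_lt_iff₀ hd] at hk₀
      exact hk₀
    nlinarith
  by_cases hx : p.1 = p'.1
  · have hy : p.2 ≠ p'.2 := fun hy => h (Prod.ext hx hy)
    obtain ⟨k₀, hk⟩ := key _ _ hy
    exact ⟨k₀, fun k h1 h2 => hk k h1 (congrArg Prod.snd h2)⟩
  · obtain ⟨k₀, hk⟩ := key _ _ hx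
    exact ⟨k₀, fun k h1 h2 => hk k h1 (congrArg Prod.fst h2)⟩

theorem EE_mono {X : Set ℝ} {M M' : Set (ℝ × ℝ)} (h : M ⊆ M') : EE X M ⊆ EE X M' := by
  rintro p ⟨h1, q, hq, h2⟩
  exact ⟨h1, q, h hq, h2⟩

end LMM

open LMM

theorem specLM (hCS : SpecCS) : SpecLM := by
  classical
  intro N hN h0 h1
  -- the first level
  obtain ⟨R₀, hR₀⟩ : ∃ R₀ : ℝ, ∀ p ∈ N, ‖p‖ ≤ R₀ := hN.isBounded.exists_norm_le
  let s₀ : Stage N (R₀ + 1) :=
    { k := 0
      D := fun _ => Metric.closedBall 0 (R₀ + 1)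
      ρ := 1
      hρ := one_pos
      lev := by
        intro p hp
        refine ⟨(0, p.2), by simp [val], ?_⟩
        apply Metric.closedBall_subset_closedBall'
        rw [dist_zero_right]
        have h2 : ‖((0 : ℝ), p.2)‖ ≤ ‖p‖ := by
          rw [Prod.norm_def, Prod.norm_def]
          simp
        linarith [hR₀ p hp]
      bd := by
        intro p _ q hq
        rw [mem_closedBall_zero_iff] at hq
        exact (norm_fst_le q).trans hq }
  have hnext : ∀ (s : Stage N (R₀ + 1)) (n : ℕ), ∃ t : Stage N (R₀ + 1), Next N s t (1 / (n + 1)) :=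
    fun s n => exists_next hCS hN h0 h1 s (by positivity)
  choose nx hnx using hnext
  let st : ℕ → Stage N (R₀ + 1) := fun n => Nat.rec s₀ (fun n s => nx s n) n
  have hst : ∀ n, Next N (st n) (st (n + 1)) (1 / (n + 1)) := fun n => hnx (st n) n
  have hk : ∀ n, n ≤ (st n).k := by
    intro n
    induction n with
    | zero => exact Nat.zero_le _
    | succ n ih => exact Nat.succ_le_of_lt (lt_of_le_of_lt ih (hst n).1)
  -- the limit
  have hlim : ∀ p ∈ N, ∃ q : ℝ × ℝ, val p.1 q = p.2 ∧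
      ∀ n, q ∈ (st (n + 1)).D (cell (st (n + 1)).k p) := by
    intro p hp
    have hne : ∀ n, ∃ q, val p.1 q = p.2 ∧ q ∈ (st (n + 1)).D (cell (st (n + 1)).k p) := by
      intro n
      obtain ⟨q, h2, h3⟩ := (st (n + 1)).lev p hp
      exact ⟨q, h2, h3 (Metric.mem_closedBall_self (st (n + 1)).hρ.le)⟩
    have hclosed : IsClosed {q : ℝ × ℝ | val p.1 q = p.2} := by
      apply isClosed_eq _ continuous_const
      unfold val
      fun_prop
    have hmain := IsCompact.nonempty_iInter_of_sequence_nonempty_isCompact_isClosed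
      (fun n => {q : ℝ × ℝ | val p.1 q = p.2} ∩ (st (n + 1)).D (cell (st (n + 1)).k p))
      (fun n => inter_subset_inter_right _ ((hst (n + 1)).2.1 p hp))
      (fun n => by
        obtain ⟨q, h2, h3⟩ := hne n
        exact ⟨q, h2, h3⟩)
      (((hst 0).2.2.1 p hp).1.inter_left hclosed)
      (fun n => hclosed.inter ((hst n).2.2.1 p hp).1.isClosed)
    obtain ⟨q, hq⟩ := hmain
    rw [mem_iInter] at hq
    exact ⟨q, (hq 0).1, fun n => (hq n).2⟩
  choose! q hq1 hq2 using hlim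
  refine ⟨q, hq1, ?_, ?_⟩
  · intro p hp p' hp' heq
    by_contra hne
    obtain ⟨k₀, hk₀⟩ := cell_ne hne
    have h2 : k₀ ≤ (st (k₀ + 1)).k := (Nat.le_succ k₀).trans (hk (k₀ + 1))
    exact (hst k₀).2.2.2.1 p hp p' hp' (hk₀ _ h2) (q p) (hq2 p hp k₀) (q p') (hq2 p' hp' k₀) heq
  · have hle : ∀ n : ℕ, volume (closure (⋃ p ∈ N, EE (Icc p.1 2) {q p})) ≤
        ENNReal.ofReal (1 / (n + 1)) := by
      intro n
      refine le_trans (measure_mono (closure_mono ?_)) (hst n).2.2.2.2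
      apply iUnion₂_mono
      intro p hp
      apply EE_mono
      rw [singleton_subset_iff]
      exact hq2 p hp n
    have ht : Tendsto (fun n : ℕ => ENNReal.ofReal (1 / ((n : ℝ) + 1))) atTop (𝓝 0) := by
      rw [← ENNReal.ofReal_zero]
      exact ENNReal.tendsto_ofReal tendsto_one_div_add_atTop_nhds_zero_nat
    exact le_antisymm (ge_of_tendsto' ht hle) bot_le

end Pool.Agent.Lib.MP_6b55e5_an.OS
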