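import Pool.Agent.Lib.MP_6b55e5_an.OS.Spec
import Pool.Agent.Lib.MP_6b55e5_an.OS.Blind

/-!
# One unit segment in every direction (MP_6b55e5_an), module PL (helper84)

From the blind lemma (`OS/Blind.lean`): the lines through the points of the right side of the parallelogram.
-/

set_option autoImplicit false

namespace Pool.Agent.Lib.MP_6b55e5_an.OS

open MeasureTheory Set

namespace PLM

/-- the line with the parameter `t` -/
def ln (x₀ s a₀ b₀ : ℝ) (f : ℝ → ℝ) (t : ℝ) : ℝ × ℝ := (a₀ + f t, b₀ + t - f t * (x₀ + s))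

lemma val_ln (x₀ s a₀ b₀ : ℝ) (f : ℝ → ℝ) (t x : ℝ) :
    val x (ln x₀ s a₀ b₀ f t) = b₀ + a₀ * x + (t + f t * (x - (x₀ + s))) := by
  unfold val ln
  simp only
  ring

/-- the affine coordinates of the parallelogram -/
def sh (x₀ s a₀ b₀ : ℝ) (p : ℝ × ℝ) : ℝ × ℝ := (p.1 - (x₀ + s), p.2 - (b₀ + a₀ * p.1))

lemma sh_continuous (x₀ s a₀ b₀ : ℝ) : Continuous (sh x₀ s a₀ b₀) := by
  unfold sh
  fun_prop

/-- the shear does not change the area -/
lemma volume_sh (x₀ s a₀ b₀ : ℝ) (K : Set (ℝ × ℝ)) (hK : IsClosed K) :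
    volume (sh x₀ s a₀ b₀ ⁻¹' K) = volume K := by
  have h1 : MeasurableSet (sh x₀ s a₀ b₀ ⁻¹' K) := (hK.preimage (sh_continuous _ _ _ _)).measurableSet
  rw [Measure.volume_eq_prod, Measure.prod_apply h1, Measure.prod_apply hK.measurableSet]
  have h2 : ∀ x : ℝ, volume (Prod.mk x ⁻¹' (sh x₀ s a₀ b₀ ⁻¹' K)) =
      volume (Prod.mk (x - (x₀ + s)) ⁻¹' K) := by
    intro x
    have e : Prod.mk x ⁻¹' (sh x₀ s a₀ b₀ ⁻¹' K) =
        (fun y => -(b₀ + a₀ * x) + y) ⁻¹' (Prod.mk (x - (x₀ + s)) ⁻¹' K) := by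
      ext y
      simp only [mem_preimage, sh]
      rw [show y - (b₀ + a₀ * x) = -(b₀ + a₀ * x) + y by ring]
    rw [e, measure_preimage_add]
  simp only [h2]
  have h3 := lintegral_sub_right_eq_self (μ := (volume : Measure ℝ))
    (fun x => volume (Prod.mk x ⁻¹' K)) (x₀ + s)
  exact h3

/-- a rectangle -/
lemma volume_box (a b c d : ℝ) (hab : a ≤ b) :
    volume (Icc a b ×ˢ Icc c d : Set (ℝ × ℝ)) = ENNReal.ofReal ((b - a) * (d - c)) := by
  rw [Measure.volume_eq_prod, Measure.prod_prod, Real.volume_Icc, Real.volume_Icc,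
    ← ENNReal.ofReal_mul (by linarith)]

end PLM

open PLM in
theorem specPL : SpecPL := by
  intro x₀ s h a₀ b₀ η ε hx₀ hs hxs hh hη hε
  -- the small number
  obtain ⟨r, hr0, hr1, hr2, hr3⟩ : ∃ r : ℝ, 0 < r ∧ r ≤ 1 ∧ 4 * r ≤ η ∧
      (s + r) * (h + 9 * r) ≤ s * h + ε / 2 := by
    have hc : 0 < 9 * s + h + 9 := by linarith
    refine ⟨min 1 (min (η / 4) (ε / (2 * (9 * s + h + 9)))), by positivity, min_le_left _ _, ?_, ?_⟩
    · have := (min_le_right 1 (min (η / 4) (ε / (2 * (9 * s + h + 9))))).trans (min_le_left _ _)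
      linarith
    · set r := min 1 (min (η / 4) (ε / (2 * (9 * s + h + 9)))) with hr
      have h0 : 0 < r := by positivity
      have h1 : r ≤ 1 := min_le_left _ _
      have h2 : r ≤ ε / (2 * (9 * s + h + 9)) := (min_le_right _ _).trans (min_le_right _ _)
      rw [le_div_iff₀ (by positivity)] at h2
      nlinarith
  obtain ⟨f, K, f1, f2, f3, f4, f5⟩ := BL.blind (L := h + r) (d := r) (ε := ε / 2) (ρ := r)
    (by linarith) hr0 (by linarith) hr0
  set T : Set (ℝ × ℝ) := ln x₀ s a₀ b₀ f '' Ico 0 (h + r) with hT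
  -- all lines are in a compact box
  have hbox : T ⊆ Icc (a₀ - η) (a₀ + η) ×ˢ Icc (b₀ - η) (b₀ + h + η) := by
    rintro _ ⟨t, ⟨t0, t1⟩, rfl⟩
    have h1 := abs_le.1 (f1 t)
    have h2 : |f t * (x₀ + s)| ≤ r * (3 / 2) := by
      rw [abs_mul, abs_of_nonneg (show 0 ≤ x₀ + s by linarith)]
      exact mul_le_mul (f1 t) hxs (by linarith) hr0.le
    have h3 := abs_le.1 h2
    simp only [ln, mem_prod, mem_Icc]
    refine ⟨⟨by linarith [h1.1], by linarith [h1.2]⟩, ⟨by linarith [h3.2], by linarith [h3.1]⟩⟩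
  have hcl : closure T ⊆ Icc (a₀ - η) (a₀ + η) ×ˢ Icc (b₀ - η) (b₀ + h + η) :=
    closure_minimal hbox (isClosed_Icc.prod isClosed_Icc)
  refine ⟨closure T, ?_, ?_, ?_, ?_⟩
  · exact (isCompact_Icc.prod isCompact_Icc).of_isClosed_subset isClosed_closure hcl
  · intro q hq
    obtain ⟨⟨h1, h2⟩, h3, h4⟩ := hcl hq
    exact ⟨abs_le.2 ⟨by linarith, by linarith⟩, h3, h4⟩
  · rintro x ⟨hx1, hx2⟩ y ⟨hy1, hy2⟩
    obtain ⟨t, t0, t1, ht⟩ := f2 (x - (x₀ + s)) (y - (b₀ + a₀ * x)) (by linarith) (by linarith)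
      (by linarith)
    refine ⟨ln x₀ s a₀ b₀ f t, subset_closure ⟨t, ⟨t0, t1⟩, rfl⟩, ?_⟩
    rw [val_ln, ht]
    ring
  · -- the near part and the far part
    have hsub : EE (Icc x₀ 2) (closure T) ⊆
        sh x₀ s a₀ b₀ ⁻¹' (Icc (-s) r ×ˢ Icc (-(2 * r)) (h + 3 * r)) ∪ sh x₀ s a₀ b₀ ⁻¹' K := by
      rintro ⟨x, y⟩ ⟨⟨hx1, hx2⟩, q, hq, hy⟩
      simp only at hx1 hx2 hy
      have hv : Continuous (fun q : ℝ × ℝ => sh x₀ s a₀ b₀ (x, val x q)) := by
        unfold val
        exact (sh_continuous _ _ _ _).comp (by fun_prop)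
      rcases le_total x (x₀ + s + r) with hxr | hxr
      · left
        have hC : IsClosed ((fun q : ℝ × ℝ => sh x₀ s a₀ b₀ (x, val x q)) ⁻¹'
            (Icc (-s) r ×ˢ Icc (-(2 * r)) (h + 3 * r))) :=
          (isClosed_Icc.prod isClosed_Icc).preimage hv
        have hTC : T ⊆ (fun q : ℝ × ℝ => sh x₀ s a₀ b₀ (x, val x q)) ⁻¹'
            (Icc (-s) r ×ˢ Icc (-(2 * r)) (h + 3 * r)) := by
          rintro _ ⟨t, ⟨t0, t1⟩, rfl⟩
          simp only [mem_preimage, sh, val_ln, mem_prod, mem_Icc]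
          have h2 : |f t * (x - (x₀ + s))| ≤ r * 2 := by
            rw [abs_mul]
            refine mul_le_mul (f1 t) ?_ (abs_nonneg _) hr0.le
            rw [abs_le]
            constructor <;> linarith
          have h3 := abs_le.1 h2
          refine ⟨⟨by linarith, by linarith⟩, ?_, ?_⟩
          · linarith [h3.1]
          · linarith [h3.2]
        have := closure_minimal hTC hC hq
        simp only [mem_preimage] at this
        rw [hy]
        exact this
      · right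
        have hC : IsClosed ((fun q : ℝ × ℝ => sh x₀ s a₀ b₀ (x, val x q)) ⁻¹' K) :=
          f3.isClosed.preimage hv
        have hTC : T ⊆ (fun q : ℝ × ℝ => sh x₀ s a₀ b₀ (x, val x q)) ⁻¹' K := by
          rintro _ ⟨t, ⟨t0, t1⟩, rfl⟩
          simp only [mem_preimage, sh, val_ln]
          have := f5 t (x - (x₀ + s)) t0 t1 (by linarith) (by linarith)
          convert this using 2
          ring
        have := closure_minimal hTC hC hq
        simp only [mem_preimage] at this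
        rw [hy]
        exact this
    refine (measure_mono hsub).trans ((measure_union_le _ _).trans ?_)
    rw [volume_sh _ _ _ _ _ (isClosed_Icc.prod isClosed_Icc), volume_sh _ _ _ _ _ f3.isClosed,
      volume_box _ _ _ _ (by linarith)]
    calc ENNReal.ofReal ((r - -s) * (h + 3 * r - -(2 * r))) + volume K ≤
        ENNReal.ofReal (s * h + ε / 2) + ENNReal.ofReal (ε / 2) := by
          refine add_le_add (ENNReal.ofReal_le_ofReal ?_) f4
          nlinarith
      _ = ENNReal.ofReal (s * h + ε) := by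
          rw [← ENNReal.ofReal_add (by positivity) (by positivity)]
          congr 1
          ring

end Pool.Agent.Lib.MP_6b55e5_an.OS
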