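import Pool.Agent.Lib.MP_6b55e5_an.Fat
import Pool.Agent.Lib.MP_6b55e5_an.Assemble

/-!
# One unit segment in every direction (MP_6b55e5_an, folder OS): definitions and statements of the modules

A point `q = (a, b)` of `ℝ × ℝ` stands for the line `y = b + a x`.
-/

set_option autoImplicit false

namespace Pool.Agent.Lib.MP_6b55e5_an.OS

open MeasureTheory Set

/-- The value at `x` of the line `q`. -/
def val (x : ℝ) (q : ℝ × ℝ) : ℝ := q.2 + q.1 * x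

/-- The part over `X` of the union of the lines in `M`. -/
def EE (X : Set ℝ) (M : Set (ℝ × ℝ)) : Set (ℝ × ℝ) := {p | p.1 ∈ X ∧ ∃ q ∈ M, p.2 = val p.1 q}

/-- The segments with the base points `c ∈ S`, with the pole `z` and the signed length `l`: the lines
`(c.1 + t l, c.2 - z t l)`, `0 ≤ t ≤ 1`, which pass through one point over `z`. -/
def St (S : Finset (ℝ × ℝ)) (z l : ℝ) : Set (ℝ × ℝ) :=
  {q | ∃ c ∈ S, ∃ t ∈ Icc (0 : ℝ) 1, q = (c.1 + t * l, c.2 - z * (t * l))}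

/-- The dyadic cell of a point. -/
noncomputable def cell (k : ℕ) (p : ℝ × ℝ) : ℤ × ℤ := (⌊2 ^ k * p.1⌋, ⌊2 ^ k * p.2⌋)

/-- Every point `p` of `N` lies on a line `q` such that the ball of radius `ρ` around `q` is contained in the
set `D c` of the cell `c` of `p`. -/
def Lev (N : Set (ℝ × ℝ)) (k : ℕ) (D : ℤ × ℤ → Set (ℝ × ℝ)) (ρ : ℝ) : Prop :=
  ∀ p ∈ N, ∃ q : ℝ × ℝ, val p.1 q = p.2 ∧ Metric.closedBall q ρ ⊆ D (cell k p)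

/-- VB.  The Venetian blind step.  The new base points are `(c.1 + (j/n) l, c.2 - z (j/n) l)`, `0 ≤ j < n`.
For `q ∈ St S z l` with the parameter `t`, `j = ⌊n t⌋` (`n - 1` if `t = 1`), one has
`val x q = val x (new base) + (t - j/n) (x - z) l` and `0 ≤ (t - j/n) (x-z) l ≤ (x-z) l / n ≤ (x-z') l'`. -/
def SpecVB : Prop := ∀ (S : Finset (ℝ × ℝ)) (z l z' l' : ℝ) (I : Set ℝ) (n : ℕ), 0 < n →
  (∀ x ∈ I, 0 ≤ (x - z) * l ∧ (x - z) * l ≤ n * ((x - z') * l')) →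
  ∃ S' : Finset (ℝ × ℝ), S'.card ≤ n * S.card ∧ (∀ c ∈ S', c ∈ St S z l) ∧
    ∀ x ∈ I, ∀ q ∈ St S z l, ∃ q' ∈ St S' z' l', val x q' = val x q

/-- PL.  The lines through the points of a parallelogram, with slopes near `a₀`: the union to the right of the
left side of the parallelogram has an area not much bigger than the parallelogram. -/
def SpecPL : Prop := ∀ (x₀ s h a₀ b₀ η ε : ℝ), 0 ≤ x₀ → 0 < s → x₀ + s ≤ 3 / 2 → 0 < h → 0 < η → 0 < ε →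
  ∃ M : Set (ℝ × ℝ), IsCompact M ∧
    (∀ q ∈ M, |q.1 - a₀| ≤ η ∧ b₀ - η ≤ q.2 ∧ q.2 ≤ b₀ + h + η) ∧
    (∀ x ∈ Icc x₀ (x₀ + s), ∀ y ∈ Icc (b₀ + a₀ * x) (b₀ + a₀ * x + h), ∃ q ∈ M, val x q = y) ∧
    volume (EE (Icc x₀ 2) M) ≤ ENNReal.ofReal (s * h + ε)

/-- CS.  The cell step. -/
def SpecCS : Prop := ∀ (N : Set (ℝ × ℝ)), IsCompact N → volume N = 0 → (∀ p ∈ N, p.1 ∈ Icc (0 : ℝ) 1) →
  ∀ (R : ℝ) (k : ℕ) (D : ℤ × ℤ → Set (ℝ × ℝ)) (ρ : ℝ), 0 < ρ → Lev N k D ρ →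
  (∀ p ∈ N, ∀ q ∈ D (cell k p), |q.1| ≤ R) → ∀ ε : ℝ, 0 < ε →
  ∃ (k' : ℕ) (D' : ℤ × ℤ → Set (ℝ × ℝ)) (ρ' : ℝ), k < k' ∧ 0 < ρ' ∧ Lev N k' D' ρ' ∧
    (∀ p ∈ N, D' (cell k' p) ⊆ D (cell k p)) ∧
    (∀ p ∈ N, IsCompact (D' (cell k' p)) ∧ ∀ q ∈ D' (cell k' p), ∀ q' ∈ D' (cell k' p), dist q q' ≤ ε) ∧
    (∀ p ∈ N, ∀ p' ∈ N, cell k' p ≠ cell k' p' →
      ∀ q ∈ D' (cell k' p), ∀ q' ∈ D' (cell k' p'), q.1 ≠ q'.1) ∧
    volume (closure (⋃ p ∈ N, EE (Icc p.1 2) (D' (cell k' p)))) ≤ ENNReal.ofReal ε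

/-- LM.  The limit: lines through the points of `N` with different slopes, such that the union of the parts to
the right of the points is a null set. -/
def SpecLM : Prop := ∀ (N : Set (ℝ × ℝ)), IsCompact N → volume N = 0 → (∀ p ∈ N, p.1 ∈ Icc (0 : ℝ) 1) →
  ∃ q : ℝ × ℝ → ℝ × ℝ, (∀ p ∈ N, val p.1 (q p) = p.2) ∧ InjOn (fun p => (q p).1) N ∧
    volume (closure (⋃ p ∈ N, EE (Icc p.1 2) {q p})) = 0

/-- FA.  The theorem. -/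
def SpecFA : Prop := ∃ P : Plane → Plane, (∀ e, ‖e‖ = 1 → P (-e) = P e + e) ∧
  IsBesicovitch (⋃ e ∈ {e : Plane | ‖e‖ = 1}, segment ℝ (P e) (P e + e)) ∧
  volume (closure (⋃ e ∈ {e : Plane | ‖e‖ = 1}, segment ℝ (P e) (P e + e))) = 0 ∧
  ¬ PropertyS (⋃ e ∈ {e : Plane | ‖e‖ = 1}, segment ℝ (P e) (P e + e))

end Pool.Agent.Lib.MP_6b55e5_an.OS
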